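import Pool.Agent.H.MP_abf7f7_an.Constr

/-! Bordering a Hadamard matrix `H` of order `m` with `H C = B P` by two rows and two columns. -/

set_option autoImplicit false

namespace Pool.Agent.H.MP_abf7f7_an

open Matrix

lemma border_opNorm_le_one {n : ℕ} {A : Matrix (Fin n) (Fin n) ℝ} (h : Aᵀ * A = 1) :
    opNorm A ≤ 1 := by
  have h1 : Aᵀ * A = (1 : ℝ) • (1 : Matrix (Fin n) (Fin n) ℝ) := by rw [h, one_smul]
  refine opNorm_le _ zero_le_one fun z => ?_
  rw [mulVec_dot_of h1, one_pow]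

/-- Lower bound for `r_n` by the bilinear form of `M ∘ A`, `A` orthogonal. -/
lemma border_dot_le {n : ℕ} {M A : Matrix (Fin n) (Fin n) ℝ} (hM : IsSign M) (hA : Aᵀ * A = 1)
    (x : Fin n → ℝ) (hx : x ⬝ᵥ x = 1) :
    (∑ i, ∑ j, x i * (M i j * A i j) * x j) ^ 2 ≤ rMax n ^ 2 := by
  have h1 := le_rMax_sq_of hM (border_opNorm_le_one hA) x hx
  have h2 := dot_sq_le x ((M ⊙ A) *ᵥ x)
  rw [hx, one_mul] at h2
  have h3 : x ⬝ᵥ ((M ⊙ A) *ᵥ x) = ∑ i, ∑ j, x i * (M i j * A i j) * x j := by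
    simp only [dotProduct, mulVec, Matrix.hadamard_apply, Finset.mul_sum]
    exact Finset.sum_congr rfl fun i _ => Finset.sum_congr rfl fun j _ => by ring
  rw [← h3]
  exact h2.trans h1

/-- The same for matrices with two blocks of indices. -/
lemma border_dot_le' {m : ℕ} {M A : Matrix (Fin m ⊕ Fin 2) (Fin m ⊕ Fin 2) ℝ}
    (hM : ∀ i j, M i j = 1 ∨ M i j = -1) (hA : Aᵀ * A = 1)
    (x : Fin m ⊕ Fin 2 → ℝ) (hx : ∑ i, x i * x i = 1) :
    (∑ i, ∑ j, x i * (M i j * A i j) * x j) ^ 2 ≤ rMax (m + 2) ^ 2 := by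
  let e : Fin (m + 2) ≃ Fin m ⊕ Fin 2 := finSumFinEquiv.symm
  have h1 : (A.submatrix e e)ᵀ * A.submatrix e e = 1 := by
    rw [Matrix.transpose_submatrix, Matrix.submatrix_mul_equiv, hA, Matrix.submatrix_one_equiv]
  have h2 : IsSign (M.submatrix e e) := fun i j => hM _ _
  have h3 : (fun i => x (e i)) ⬝ᵥ (fun i => x (e i)) = 1 := by
    rw [← hx]
    exact Equiv.sum_comp e fun i => x i * x i
  have h4 := border_dot_le h2 h1 _ h3
  have h5 : ∑ i, ∑ j, x (e i) * (M.submatrix e e i j * A.submatrix e e i j) * x (e j) =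
      ∑ i, ∑ j, x i * (M i j * A i j) * x j := by
    rw [← Equiv.sum_comp e fun i => ∑ j, x i * (M i j * A i j) * x j]
    refine Finset.sum_congr rfl fun i _ => ?_
    exact Equiv.sum_comp e fun j => x (e i) * (M (e i) j * A (e i) j) * x j
  rw [h5] at h4
  exact h4

/-- The sum of the entries of an entrywise product. -/
lemma border_sum_eq_trace {m n : ℕ} (U V : Matrix (Fin m) (Fin n) ℝ) :
    ∑ i, ∑ j, U i j * V i j = (Uᵀ * V).trace := by
  simp only [Matrix.trace, Matrix.diag_apply, Matrix.mul_apply, Matrix.transpose_apply]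
  rw [Finset.sum_comm]

lemma border_abs_add {p q s : ℝ} (h : p * p + q * q = s * s) : s ≤ |p| + |q| := by
  have h1 := abs_nonneg p
  have h2 := abs_nonneg q
  have h3 : |p| * |p| = p * p := abs_mul_abs_self p
  have h4 : |q| * |q| = q * q := abs_mul_abs_self q
  nlinarith [mul_nonneg h1 h2]

/-- **Bordering.** If `H` is a Hadamard matrix of order `m` and `H C = B P` for sign matrices `B`, `C`
with two orthogonal columns, then `r_{m+2} > √(m+1)`. -/
theorem rMax_of_pair {m : ℕ} (hm : 1 ≤ m) {H : Matrix (Fin m) (Fin m) ℝ} (hH : HadamardMat H)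
    {B C : Matrix (Fin m) (Fin 2) ℝ} (hB : IsSign B) (hC : IsSign C)
    (hBB : Bᵀ * B = (m : ℝ) • (1 : Matrix (Fin 2) (Fin 2) ℝ))
    (hCC : Cᵀ * C = (m : ℝ) • (1 : Matrix (Fin 2) (Fin 2) ℝ))
    {P : Matrix (Fin 2) (Fin 2) ℝ} (hP : H * C = B * P) :
    (m : ℝ) + 1 < rMax (m + 2) ^ 2 := by
  have hmR : (1 : ℝ) ≤ m := by exact_mod_cast hm
  have hm0 : (0 : ℝ) < m := by linarith
  have hHH := transpose_mul_self_of hm0.ne' hH.2
  obtain ⟨s, hs0, hss⟩ : ∃ s : ℝ, 0 < s ∧ s * s = m :=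
    ⟨Real.sqrt m, Real.sqrt_pos.mpr hm0, Real.mul_self_sqrt hm0.le⟩
  have hs1 : 1 ≤ s := by nlinarith
  obtain ⟨r, hr0, hrr⟩ : ∃ r : ℝ, 0 < r ∧ r * r = 3 :=
    ⟨Real.sqrt 3, Real.sqrt_pos.mpr (by norm_num), Real.mul_self_sqrt (by norm_num)⟩
  -- `P` is a multiple of an orthogonal matrix
  have hPP : Pᵀ * P = (m : ℝ) • (1 : Matrix (Fin 2) (Fin 2) ℝ) := by
    have h1 : (H * C)ᵀ * (H * C) = (m : ℝ) • ((m : ℝ) • (1 : Matrix (Fin 2) (Fin 2) ℝ)) := by
      rw [Matrix.transpose_mul, Matrix.mul_assoc, ← Matrix.mul_assoc Hᵀ, hHH, Matrix.smul_mul,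
        Matrix.one_mul, Matrix.mul_smul, hCC]
    have h2 : (B * P)ᵀ * (B * P) = (m : ℝ) • (Pᵀ * P) := by
      rw [Matrix.transpose_mul, Matrix.mul_assoc, ← Matrix.mul_assoc Bᵀ, hBB, Matrix.smul_mul,
        Matrix.one_mul, Matrix.mul_smul]
    rw [hP, h2] at h1
    exact smul_right_injective _ hm0.ne' h1
  have hPP' : P * Pᵀ = (m : ℝ) • (1 : Matrix (Fin 2) (Fin 2) ℝ) := by
    have h1 : (Pᵀ) * (Pᵀ)ᵀ = (m : ℝ) • (1 : Matrix (Fin 2) (Fin 2) ℝ) := by
      rw [Matrix.transpose_transpose, hPP]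
    have h2 := transpose_mul_self_of hm0.ne' h1
    rwa [Matrix.transpose_transpose] at h2
  have hHB : Hᵀ * B = C * Pᵀ := by
    have h1 : (m : ℝ) • (Hᵀ * B) = (m : ℝ) • (C * Pᵀ) := by
      calc (m : ℝ) • (Hᵀ * B) = Hᵀ * (B * (P * Pᵀ)) := by
            rw [hPP', Matrix.mul_smul, Matrix.mul_smul, Matrix.mul_one]
        _ = (Hᵀ * H) * (C * Pᵀ) := by
            rw [← Matrix.mul_assoc B, ← hP, Matrix.mul_assoc H, ← Matrix.mul_assoc Hᵀ]
        _ = (m : ℝ) • (C * Pᵀ) := by rw [hHH, Matrix.smul_mul, Matrix.one_mul]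
    exact smul_right_injective _ hm0.ne' h1
  -- the matrices
  let X : Matrix (Fin m) (Fin m) ℝ := s⁻¹ • (H - (1 / (2 * (m : ℝ))) • (H * (C * Cᵀ)))
  let Y : Matrix (Fin m) (Fin 2) ℝ := (r / (2 * s)) • B
  let Z : Matrix (Fin 2) (Fin m) ℝ := (r / (2 * s)) • Cᵀ
  let T : Matrix (Fin 2) (Fin 2) ℝ := (-(1 / (2 * s))) • Pᵀ
  let D : Matrix (Fin 2) (Fin 2) ℝ := Matrix.of fun i j => if 0 ≤ P j i then -1 else 1
  have hCCC : (C * Cᵀ) * (C * Cᵀ) = (m : ℝ) • (C * Cᵀ) := by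
    rw [Matrix.mul_assoc, ← Matrix.mul_assoc Cᵀ, hCC, Matrix.smul_mul, Matrix.one_mul,
      Matrix.mul_smul]
  have hCCT : (C * Cᵀ)ᵀ = C * Cᵀ := by rw [Matrix.transpose_mul, Matrix.transpose_transpose]
  have hHHW : Hᵀ * (H * (C * Cᵀ)) = (m : ℝ) • (C * Cᵀ) := by
    rw [← Matrix.mul_assoc, hHH, Matrix.smul_mul, Matrix.one_mul]
  have hWT : (H * (C * Cᵀ))ᵀ = C * Cᵀ * Hᵀ := by rw [Matrix.transpose_mul, hCCT]
  have hs' : s ≠ 0 := hs0.ne'
  -- `A = [X Y; Z T]` is orthogonal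
  have hXX : Xᵀ * X + Zᵀ * Z = 1 := by
    have h1 : Xᵀ * X = s⁻¹ • s⁻¹ • ((m : ℝ) • (1 : Matrix (Fin m) (Fin m) ℝ)
        - (3 / 4 : ℝ) • (C * Cᵀ)) := by
      simp only [X]
      rw [Matrix.transpose_smul, Matrix.transpose_sub, Matrix.transpose_smul, hWT,
        Matrix.smul_mul, Matrix.mul_smul, Matrix.sub_mul, Matrix.mul_sub, Matrix.mul_sub,
        Matrix.mul_smul, Matrix.smul_mul, Matrix.smul_mul, Matrix.mul_smul, hHH, hHHW,
        Matrix.mul_assoc (C * Cᵀ) Hᵀ H, hHH, Matrix.mul_assoc (C * Cᵀ) Hᵀ (H * (C * Cᵀ)), hHHW,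
        Matrix.mul_smul, Matrix.mul_smul, hCCC, Matrix.mul_one]
      congr 2
      ext i j
      simp only [Matrix.sub_apply, Matrix.smul_apply, smul_eq_mul]
      field_simp
      ring
    have h2 : Zᵀ * Z = (3 / (4 * (m : ℝ))) • (C * Cᵀ) := by
      simp only [Z]
      rw [Matrix.transpose_smul, Matrix.transpose_transpose, Matrix.smul_mul, Matrix.mul_smul,
        smul_smul]
      congr 1
      rw [← hss]
      field_simp
      nlinarith
    rw [h1, h2]
    ext i j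
    simp only [Matrix.add_apply, Matrix.sub_apply, Matrix.smul_apply, smul_eq_mul]
    rw [← hss]
    field_simp
    ring
  have hXY : Xᵀ * Y + Zᵀ * T = 0 := by
    have h1 : Xᵀ * Y = s⁻¹ • (r / (2 * s)) • ((1 / 2 : ℝ) • (C * Pᵀ)) := by
      simp only [X, Y]
      rw [Matrix.transpose_smul, Matrix.transpose_sub, Matrix.transpose_smul, hWT,
        Matrix.smul_mul, Matrix.mul_smul, Matrix.sub_mul, Matrix.smul_mul,
        Matrix.mul_assoc (C * Cᵀ) Hᵀ B, hHB, Matrix.mul_assoc C Cᵀ (C * Pᵀ),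
        ← Matrix.mul_assoc Cᵀ C Pᵀ, hCC, Matrix.smul_mul, Matrix.one_mul, Matrix.mul_smul]
      congr 2
      ext i j
      simp only [Matrix.sub_apply, Matrix.smul_apply, smul_eq_mul]
      field_simp
      ring
    have h2 : Zᵀ * T = (r / (2 * s)) • (-(1 / (2 * s))) • (C * Pᵀ) := by
      simp only [Z, T]
      rw [Matrix.transpose_smul, Matrix.transpose_transpose, Matrix.smul_mul, Matrix.mul_smul]
    rw [h1, h2]
    ext i j
    simp only [Matrix.add_apply, Matrix.smul_apply, smul_eq_mul, Matrix.zero_apply]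
    field_simp
    ring
  have hYY : Yᵀ * Y + Tᵀ * T = 1 := by
    have h1 : Yᵀ * Y = (3 / 4 : ℝ) • (1 : Matrix (Fin 2) (Fin 2) ℝ) := by
      simp only [Y]
      rw [Matrix.transpose_smul, Matrix.smul_mul, Matrix.mul_smul, hBB, smul_smul, smul_smul]
      congr 1
      rw [← hss]
      field_simp
      nlinarith
    have h2 : Tᵀ * T = (1 / 4 : ℝ) • (1 : Matrix (Fin 2) (Fin 2) ℝ) := by
      simp only [T]
      rw [Matrix.transpose_smul, Matrix.transpose_transpose, Matrix.smul_mul, Matrix.mul_smul, hPP',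
        smul_smul, smul_smul]
      congr 1
      rw [← hss]
      field_simp
      norm_num
    rw [h1, h2, ← add_smul]
    norm_num
  have hYX : Yᵀ * X + Tᵀ * Z = 0 := by
    have h1 := congrArg Matrix.transpose hXY
    rw [Matrix.transpose_add, Matrix.transpose_mul, Matrix.transpose_mul,
      Matrix.transpose_transpose, Matrix.transpose_transpose, Matrix.transpose_zero] at h1
    exact h1
  have hA : (Matrix.fromBlocks X Y Z T)ᵀ * Matrix.fromBlocks X Y Z T = 1 := by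
    rw [Matrix.fromBlocks_transpose, Matrix.fromBlocks_multiply, hXX, hXY, hYY, hYX,
      Matrix.fromBlocks_one]
  have hM : ∀ i j, Matrix.fromBlocks H B Cᵀ D i j = 1 ∨ Matrix.fromBlocks H B Cᵀ D i j = -1 := by
    rintro (i | i) (j | j)
    · exact hH.1 i j
    · exact hB i j
    · exact hC j i
    · show D i j = 1 ∨ D i j = -1
      simp only [D, Matrix.of_apply]
      split_ifs
      · exact Or.inr rfl
      · exact Or.inl rfl
  -- the four sums
  have hS1 : ∑ i, ∑ j, H i j * X i j = s * ((m : ℝ) - 1) := by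
    rw [border_sum_eq_trace]
    simp only [X]
    rw [Matrix.mul_smul, Matrix.mul_sub, Matrix.mul_smul, hHH, hHHW, Matrix.trace_smul,
      Matrix.trace_sub, Matrix.trace_smul, Matrix.trace_smul, Matrix.trace_smul,
      Matrix.trace_mul_comm, hCC, Matrix.trace_smul, Matrix.trace_one, Matrix.trace_one]
    simp only [smul_eq_mul, Fintype.card_fin]
    rw [← hss]
    field_simp
    push_cast
    ring
  have hsgn : ∀ {a b : ℕ} (U : Matrix (Fin a) (Fin b) ℝ) (_ : IsSign U) (c : ℝ),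
      ∑ i, ∑ j, U i j * (c • U) i j = a * b * c := by
    intro a b U hU c
    have : ∀ i j, U i j * (c • U) i j = c := by
      intro i j
      rw [Matrix.smul_apply, smul_eq_mul]
      have := sign_sq hU i j
      calc U i j * (c * U i j) = c * (U i j * U i j) := by ring
        _ = c := by rw [this, mul_one]
    simp only [this, Finset.sum_const, Finset.card_univ, Fintype.card_fin, nsmul_eq_mul]
    ring
  have hS2 : ∑ i, ∑ j, B i j * Y i j = r * s := by
    have h1 := hsgn B hB (r / (2 * s))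
    simp only [Y]
    rw [h1, ← hss]
    field_simp
    push_cast
    ring
  have hS3 : ∑ i, ∑ j, Cᵀ i j * Z i j = r * s := by
    have h1 := hsgn Cᵀ (fun i j => hC j i) (r / (2 * s))
    simp only [Z]
    rw [h1, ← hss]
    field_simp
    push_cast
    ring
  have hS4 : 1 ≤ ∑ i, ∑ j, D i j * T i j := by
    have h1 : ∀ i j, D i j * T i j = |P j i| / (2 * s) := by
      intro i j
      simp only [D, T, Matrix.of_apply, Matrix.smul_apply, Matrix.transpose_apply, smul_eq_mul]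
      split_ifs with h
      · rw [abs_of_nonneg h]
        ring
      · rw [abs_of_neg (not_le.1 h)]
        ring
    have h2 : ∀ i, s ≤ |P 0 i| + |P 1 i| := by
      intro i
      apply border_abs_add
      have h3 := congrFun (congrFun hPP i) i
      rw [Matrix.mul_apply, Fin.sum_univ_two] at h3
      simp only [Matrix.transpose_apply, Matrix.smul_apply, Matrix.one_apply_eq, smul_eq_mul,
        mul_one] at h3
      rw [h3, hss]
    simp only [h1, Fin.sum_univ_two]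
    have h3 := h2 0
    have h4 := h2 1
    have h5 : |P 0 0| / (2 * s) + |P 1 0| / (2 * s) + (|P 0 1| / (2 * s) + |P 1 1| / (2 * s)) =
        ((|P 0 0| + |P 1 0|) + (|P 0 1| + |P 1 1|)) / (2 * s) := by ring
    rw [h5, le_div_iff₀ (by positivity)]
    linarith
  -- the weights
  obtain ⟨α, hα0, hαα⟩ : ∃ α : ℝ, 0 < α ∧ α * α = 1 / ((m : ℝ) + 3 / 2) :=
    ⟨Real.sqrt (1 / ((m : ℝ) + 3 / 2)), Real.sqrt_pos.mpr (by positivity),
      Real.mul_self_sqrt (by positivity)⟩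
  let x : Fin m ⊕ Fin 2 → ℝ := Sum.elim (fun _ => α) (fun _ => r / 2 * α)
  have hx : ∑ i, x i * x i = 1 := by
    simp only [x, Fintype.sum_sum_type, Sum.elim_inl, Sum.elim_inr, Finset.sum_const,
      Finset.card_univ, Fintype.card_fin, nsmul_eq_mul]
    have h1 : r / 2 * α * (r / 2 * α) = (r * r) * (α * α) / 4 := by ring
    rw [h1, hrr, hαα]
    field_simp
    push_cast
    ring
  have hfin := border_dot_le' hM hA x hx
  have hsum : ∑ i, ∑ j, x i * (Matrix.fromBlocks H B Cᵀ D i j * Matrix.fromBlocks X Y Z T i j) * x j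
      = α * α * (∑ i, ∑ j, H i j * X i j) + r / 2 * (α * α) * (∑ i, ∑ j, B i j * Y i j) +
        r / 2 * (α * α) * (∑ i, ∑ j, Cᵀ i j * Z i j) +
        3 / 4 * (α * α) * (∑ i, ∑ j, D i j * T i j) := by
    have e1 : ∀ {a b : ℕ} (U V : Matrix (Fin a) (Fin b) ℝ) (c d : ℝ),
        ∑ i, ∑ j, c * (U i j * V i j) * d = c * d * ∑ i, ∑ j, U i j * V i j := by
      intro a b U V c d
      rw [Finset.mul_sum]
      refine Finset.sum_congr rfl fun i _ => ?_
      rw [Finset.mul_sum]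
      exact Finset.sum_congr rfl fun j _ => by ring
    simp only [x, Fintype.sum_sum_type, Sum.elim_inl, Sum.elim_inr, Matrix.fromBlocks_apply₁₁,
      Matrix.fromBlocks_apply₁₂, Matrix.fromBlocks_apply₂₁, Matrix.fromBlocks_apply₂₂,
      Finset.sum_add_distrib]
    rw [e1 H X, e1 B Y, e1 Cᵀ Z, e1 D T]
    have h34 : (3 / 4 : ℝ) = r * r / 4 := by rw [hrr]
    rw [h34]
    ring
  rw [hsum, hS1, hS2, hS3] at hfin
  set κ := ∑ i, ∑ j, D i j * T i j with hκ
  -- the numerical inequality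
  have hval : α * α * (s * ((m : ℝ) - 1)) + r / 2 * (α * α) * (r * s) + r / 2 * (α * α) * (r * s)
      + 3 / 4 * (α * α) * κ = (s * (m + 2) + 3 / 4 * κ) / ((m : ℝ) + 3 / 2) := by
    have h1 : α * α * (s * ((m : ℝ) - 1)) + r / 2 * (α * α) * (r * s) +
        r / 2 * (α * α) * (r * s) + 3 / 4 * (α * α) * κ =
        (α * α) * (s * ((m : ℝ) - 1) + (r * r) * s + 3 / 4 * κ) := by ring
    rw [h1, hrr, hαα]
    ring
  rw [hval] at hfin
  have hlow : (s * (m + 2) + 3 / 4) / ((m : ℝ) + 3 / 2) ≤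
      (s * (m + 2) + 3 / 4 * κ) / ((m : ℝ) + 3 / 2) := by
    apply div_le_div_of_nonneg_right _ (by positivity)
    linarith
  have hpos : 0 ≤ (s * (m + 2) + 3 / 4) / ((m : ℝ) + 3 / 2) := by positivity
  refine lt_of_lt_of_le ?_ ((pow_le_pow_left₀ hpos hlow 2).trans hfin)
  rw [div_pow, lt_div_iff₀ (by positivity)]
  have hsm : 0 ≤ (s - 1) * m := mul_nonneg (by linarith) hm0.le
  have e2 : (s * (m + 2) + 3 / 4) ^ 2 = (s * s) * (m + 2) ^ 2 + 3 / 2 * s * (m + 2) + 9 / 16 := by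
    ring
  rw [e2, hss]
  nlinarith

end Pool.Agent.H.MP_abf7f7_an
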