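import Pool.Agent.H.MP_abf7f7_an.Step

set_option autoImplicit false

namespace Pool.Agent.H.MP_abf7f7_an

open Matrix

/-- A Hadamard matrix of order `m`: a sign matrix with `H Hᵀ = m I`. -/
def HadamardMat {m : ℕ} (H : Matrix (Fin m) (Fin m) ℝ) : Prop :=
  IsSign H ∧ H * Hᵀ = (m : ℝ) • (1 : Matrix (Fin m) (Fin m) ℝ)

/-- A conference matrix of order `m`: zero diagonal, entries `±1` off the diagonal, and
`C Cᵀ = (m - 1) I`. -/
def ConferenceMat {m : ℕ} (C : Matrix (Fin m) (Fin m) ℝ) : Prop :=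
  (∀ i, C i i = 0) ∧ (∀ i j, i ≠ j → C i j = 1 ∨ C i j = -1) ∧
    C * Cᵀ = ((m : ℝ) - 1) • (1 : Matrix (Fin m) (Fin m) ℝ)

/-- From `H Hᵀ = c I` with `c ≠ 0`, also `Hᵀ H = c I`. -/
lemma transpose_mul_self_of {m : ℕ} {H : Matrix (Fin m) (Fin m) ℝ} {c : ℝ} (hc : c ≠ 0)
    (h : H * Hᵀ = c • (1 : Matrix (Fin m) (Fin m) ℝ)) :
    Hᵀ * H = c • (1 : Matrix (Fin m) (Fin m) ℝ) := by
  have h1 : (c⁻¹ • H) * Hᵀ = 1 := by
    rw [Matrix.smul_mul, h, smul_smul, inv_mul_cancel₀ hc, one_smul]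
  have h2 : Hᵀ * (c⁻¹ • H) = 1 := _root_.mul_eq_one_comm.mp h1
  rw [Matrix.mul_smul] at h2
  calc Hᵀ * H = c • (c⁻¹ • (Hᵀ * H)) := by rw [smul_smul, mul_inv_cancel₀ hc, one_smul]
    _ = c • (1 : Matrix (Fin m) (Fin m) ℝ) := by rw [h2]

lemma mulVec_dot_of {m : ℕ} {H : Matrix (Fin m) (Fin m) ℝ} {c : ℝ}
    (h : Hᵀ * H = c • (1 : Matrix (Fin m) (Fin m) ℝ)) (x y : Fin m → ℝ) :
    (H *ᵥ x) ⬝ᵥ (H *ᵥ y) = c * (x ⬝ᵥ y) := by
  rw [Matrix.dotProduct_mulVec, ← Matrix.mulVec_transpose, Matrix.mulVec_mulVec, h,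
    Matrix.smul_mulVec, Matrix.one_mulVec, smul_dotProduct, smul_eq_mul]

lemma const_dot {n : ℕ} (hn : 0 < n) :
    (fun _ : Fin n => 1 / Real.sqrt n) ⬝ᵥ (fun _ : Fin n => 1 / Real.sqrt n) = 1 := by
  have hnR : (0 : ℝ) < n := by exact_mod_cast hn
  simp only [dotProduct, Finset.sum_const, Finset.card_univ, Fintype.card_fin, nsmul_eq_mul,
    one_div_mul_one_div, Real.mul_self_sqrt hnR.le]
  field_simp

/-- If `n ≥ 1` and there is a Hadamard matrix of order `n`, then `r_n^2 ≥ n`. -/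
lemma rMax_of_hadamard {n : ℕ} (hn : 0 < n) {H : Matrix (Fin n) (Fin n) ℝ} (hH : HadamardMat H) :
    (n : ℝ) ≤ rMax n ^ 2 := by
  have hnR : (0 : ℝ) < n := by exact_mod_cast hn
  have hT := transpose_mul_self_of hnR.ne' hH.2
  set s := Real.sqrt n with hs
  have hspos : 0 < s := Real.sqrt_pos.mpr hnR
  have hss : s * s = n := Real.mul_self_sqrt hnR.le
  have hA : opNorm (s⁻¹ • H) ≤ 1 := by
    refine opNorm_le _ zero_le_one fun z => ?_
    rw [Matrix.smul_mulVec, smul_dotProduct, dotProduct_smul, mulVec_dot_of hT, smul_eq_mul,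
      smul_eq_mul, ← hss]
    apply le_of_eq
    field_simp
  have h1 := le_rMax_sq_of hH.1 hA _ (const_dot hn)
  have h2 : (H ⊙ (s⁻¹ • H)) *ᵥ (fun _ : Fin n => 1 / Real.sqrt n) = fun _ => 1 := by
    funext i
    simp only [mulVec, dotProduct, Matrix.hadamard_apply, Matrix.smul_apply, smul_eq_mul]
    have : ∀ j, H i j * (s⁻¹ * H i j) * (1 / Real.sqrt n) = 1 / n := by
      intro j
      have := sign_sq hH.1 i j
      calc H i j * (s⁻¹ * H i j) * (1 / Real.sqrt n)
          = (H i j * H i j) * (1 / (s * s)) := by rw [← hs]; field_simp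
        _ = 1 / n := by rw [this, hss, one_mul]
    simp only [this, Finset.sum_const, Finset.card_univ, Fintype.card_fin, nsmul_eq_mul]
    field_simp
  rw [h2] at h1
  simpa [dotProduct] using h1

/-- If `n ≥ 1` and there is a Hadamard matrix of order `n + 1`, then `r_n^2 > n - 1`. -/
lemma rMax_of_hadamard_succ {n : ℕ} (hn : 0 < n) {H : Matrix (Fin (n + 1)) (Fin (n + 1)) ℝ}
    (hH : HadamardMat H) : (n : ℝ) - 1 < rMax n ^ 2 := by
  have hnR : (0 : ℝ) < n := by exact_mod_cast hn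
  have hn1 : (0 : ℝ) < ((n + 1 : ℕ) : ℝ) := by positivity
  have hT := transpose_mul_self_of hn1.ne' hH.2
  set s := Real.sqrt ((n + 1 : ℕ) : ℝ) with hs
  have hspos : 0 < s := Real.sqrt_pos.mpr hn1
  have hss : s * s = ((n + 1 : ℕ) : ℝ) := Real.mul_self_sqrt hn1.le
  set C : Matrix (Fin n) (Fin n) ℝ := Matrix.of fun i j => H i.castSucc j.castSucc with hC
  have hCs : IsSign C := fun i j => hH.1 _ _
  have hA : opNorm (s⁻¹ • C) ≤ 1 := by
    refine opNorm_le _ zero_le_one fun z => ?_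
    rw [Matrix.smul_mulVec, smul_dotProduct, dotProduct_smul, smul_eq_mul,
      smul_eq_mul]
    set z' : Fin (n + 1) → ℝ := Fin.snoc (α := fun _ => ℝ) z 0 with hz'
    have e1 : ∀ i : Fin n, (C *ᵥ z) i = (H *ᵥ z') i.castSucc := by
      intro i
      simp only [mulVec, dotProduct, hC, Matrix.of_apply, hz']
      rw [Fin.sum_univ_castSucc]
      simp [Fin.snoc_castSucc, Fin.snoc_last]
    have e2 : (C *ᵥ z) ⬝ᵥ (C *ᵥ z) ≤ (H *ᵥ z') ⬝ᵥ (H *ᵥ z') := by
      have e3 : (H *ᵥ z') ⬝ᵥ (H *ᵥ z') = ∑ i, (H *ᵥ z') i * (H *ᵥ z') i := rfl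
      have e4 : (C *ᵥ z) ⬝ᵥ (C *ᵥ z) = ∑ i, (C *ᵥ z) i * (C *ᵥ z) i := rfl
      rw [e3, e4, Fin.sum_univ_castSucc]
      simp only [e1]
      have := mul_self_nonneg ((H *ᵥ z') (Fin.last n))
      linarith
    have e5 : z' ⬝ᵥ z' = z ⬝ᵥ z := by
      simp only [dotProduct, hz']
      rw [Fin.sum_univ_castSucc]
      simp [Fin.snoc_castSucc, Fin.snoc_last]
    rw [mulVec_dot_of hT, e5, ← hss] at e2
    calc s⁻¹ * (s⁻¹ * ((C *ᵥ z) ⬝ᵥ (C *ᵥ z))) ≤ s⁻¹ * (s⁻¹ * (s * s * (z ⬝ᵥ z))) := by gcongr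
      _ = 1 ^ 2 * (z ⬝ᵥ z) := by field_simp
  have h1 := le_rMax_sq_of hCs hA _ (const_dot hn)
  have h2 : (C ⊙ (s⁻¹ • C)) *ᵥ (fun _ : Fin n => 1 / Real.sqrt n)
      = fun _ => Real.sqrt n / s := by
    funext i
    simp only [mulVec, dotProduct, Matrix.hadamard_apply, Matrix.smul_apply, smul_eq_mul]
    have : ∀ j, C i j * (s⁻¹ * C i j) * (1 / Real.sqrt n) = 1 / (s * Real.sqrt n) := by
      intro j
      have := sign_sq hCs i j
      calc C i j * (s⁻¹ * C i j) * (1 / Real.sqrt n)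
          = (C i j * C i j) * (1 / (s * Real.sqrt n)) := by field_simp
        _ = _ := by rw [this, one_mul]
    simp only [this, Finset.sum_const, Finset.card_univ, Fintype.card_fin, nsmul_eq_mul]
    have h3 : Real.sqrt n * Real.sqrt n = n := Real.mul_self_sqrt hnR.le
    have h4 : Real.sqrt n ≠ 0 := (Real.sqrt_pos.mpr hnR).ne'
    calc (n : ℝ) * (1 / (s * Real.sqrt n)) = (Real.sqrt n * Real.sqrt n) / (s * Real.sqrt n) := by
          rw [h3]; ring
      _ = Real.sqrt n / s := by field_simp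
  rw [h2] at h1
  simp only [dotProduct, Finset.sum_const, Finset.card_univ, Fintype.card_fin, nsmul_eq_mul,
    div_mul_div_comm, Real.mul_self_sqrt hnR.le, hss] at h1
  refine lt_of_lt_of_le ?_ h1
  push_cast
  rw [← mul_div_assoc, lt_div_iff₀ (by positivity)]
  nlinarith

/-- If `n ≥ 2` and there is a Hadamard matrix of order `n - 1`, then `r_n^2 > n - 1`. -/
lemma rMax_of_hadamard_pred {n : ℕ} (hn : 0 < n) {H : Matrix (Fin n) (Fin n) ℝ}
    (hH : HadamardMat H) : (n : ℝ) < rMax (n + 1) ^ 2 := by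
  have h1 := rMax_of_hadamard hn hH
  have h2 := rMax_step n hn
  have hnR : (0 : ℝ) < n := by exact_mod_cast hn
  have h3 : (0 : ℝ) < 1 / n := by positivity
  linarith

/-! ### Conference matrices -/

section Conference

variable {k : ℕ} (C : Matrix (Fin (k + 1)) (Fin (k + 1)) ℝ)

/-- The sign matrix attached to a conference matrix. -/
def confM : Matrix (Fin (k + 1)) (Fin (k + 1)) ℝ :=
  C + Matrix.diagonal (fun i => if i = 0 then 1 else -(C i 0 * C 0 i))

/-- The orthogonal matrix attached to a conference matrix. -/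
noncomputable def confU : Matrix (Fin (k + 1)) (Fin (k + 1)) ℝ :=
  Matrix.of fun i j => C i j / Real.sqrt k
    + (Real.sqrt k / Real.sqrt (k + 1) - 1) *
      ((if i = 0 then 1 else 0) * (C 0 j / Real.sqrt k)
        + (C i 0 / Real.sqrt k) * (if j = 0 then 1 else 0))
    + 1 / Real.sqrt (k + 1) *
      ((if i = 0 then 1 else 0) * (if j = 0 then 1 else 0)
        - (C i 0 / Real.sqrt k) * (C 0 j / Real.sqrt k))

variable {C}

lemma isSign_confM (hC : ConferenceMat C) : IsSign (confM C) := by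
  intro i j
  unfold confM
  rw [Matrix.add_apply]
  by_cases hij : i = j
  · subst hij
    rw [Matrix.diagonal_apply_eq, hC.1 i, zero_add]
    by_cases hi : i = 0
    · simp [hi]
    · rw [if_neg hi]
      rcases hC.2.1 i 0 hi with h | h <;> rcases hC.2.1 0 i (Ne.symm hi) with h' | h' <;>
        rw [h, h'] <;> norm_num
  · rw [Matrix.diagonal_apply_ne _ hij, add_zero]
    exact hC.2.1 i j hij

lemma conf_CT (hk : 0 < k) (hC : ConferenceMat C) :
    Cᵀ * C = (k : ℝ) • (1 : Matrix (Fin (k + 1)) (Fin (k + 1)) ℝ) := by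
  have hkR : (k : ℝ) ≠ 0 := by exact_mod_cast hk.ne'
  have h := hC.2.2
  have e : (((k + 1 : ℕ) : ℝ) - 1) = k := by push_cast; ring
  rw [e] at h
  exact transpose_mul_self_of hkR h

lemma conf_CT' (hC : ConferenceMat C) :
    C * Cᵀ = (k : ℝ) • (1 : Matrix (Fin (k + 1)) (Fin (k + 1)) ℝ) := by
  have h := hC.2.2
  have e : (((k + 1 : ℕ) : ℝ) - 1) = k := by push_cast; ring
  rwa [e] at h

/-- `(U z)_i = y_i + ((c-1) y_0 + s z_0) e_0 + ((c - 1) z_0 - s y_0) b_i` with
`y = C z / √k` and `b = C e_0 / √k`. -/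
lemma confU_mulVec (z : Fin (k + 1) → ℝ) (i : Fin (k + 1)) :
    (confU C *ᵥ z) i = (C *ᵥ z) i / Real.sqrt k
      + (if i = 0 then 1 else 0) * ((Real.sqrt k / Real.sqrt (k + 1) - 1) *
          ((C *ᵥ z) 0 / Real.sqrt k) + 1 / Real.sqrt (k + 1) * z 0)
      + (C i 0 / Real.sqrt k) * ((Real.sqrt k / Real.sqrt (k + 1) - 1) * z 0
          - 1 / Real.sqrt (k + 1) * ((C *ᵥ z) 0 / Real.sqrt k)) := by
  have h0 : (C *ᵥ z) 0 = ∑ j, C 0 j * z j := rfl
  have hi : (C *ᵥ z) i = ∑ j, C i j * z j := rfl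
  have hz : z 0 = ∑ j, (if j = 0 then (1 : ℝ) else 0) * z j := by simp
  have hU : (confU C *ᵥ z) i = ∑ j, confU C i j * z j := rfl
  have key : ∀ j, confU C i j * z j = C i j * z j / Real.sqrt k
      + (Real.sqrt k / Real.sqrt (k + 1) - 1) *
      ((if i = 0 then 1 else 0) * (C 0 j * z j / Real.sqrt k)
        + (C i 0 / Real.sqrt k) * ((if j = 0 then 1 else 0) * z j))
    + 1 / Real.sqrt (k + 1) *
      ((if i = 0 then 1 else 0) * ((if j = 0 then 1 else 0) * z j)
        - (C i 0 / Real.sqrt k) * (C 0 j * z j / Real.sqrt k)) := by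
    intro j
    simp only [confU, Matrix.of_apply]
    ring
  rw [hU]
  simp only [key, Finset.sum_add_distrib, ← Finset.mul_sum, Finset.sum_sub_distrib,
    ← Finset.sum_div]
  rw [← hi, ← h0, ← hz]
  ring

lemma sqrt_facts (hk : 0 < k) : 0 < Real.sqrt k ∧ Real.sqrt k * Real.sqrt k = k ∧
    0 < Real.sqrt ((k : ℝ) + 1) ∧ Real.sqrt ((k : ℝ) + 1) * Real.sqrt ((k : ℝ) + 1) = k + 1 := by
  have hkR : (0 : ℝ) < k := by exact_mod_cast hk
  exact ⟨Real.sqrt_pos.mpr hkR, Real.mul_self_sqrt hkR.le, Real.sqrt_pos.mpr (by linarith),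
    Real.mul_self_sqrt (by linarith)⟩

lemma opNorm_confU_le (hk : 0 < k) (hC : ConferenceMat C) : opNorm (confU C) ≤ 1 := by
  refine opNorm_le _ zero_le_one fun z => ?_
  rw [one_pow, one_mul]
  obtain ⟨ht, htt, hu, huu⟩ := sqrt_facts hk
  have hT := conf_CT hk hC
  set t := Real.sqrt k with ht'
  set u := Real.sqrt ((k : ℝ) + 1) with hu'
  -- the vectors
  have hyy : (C *ᵥ z) ⬝ᵥ (C *ᵥ z) = t * t * (z ⬝ᵥ z) := by rw [mulVec_dot_of hT, htt]
  have hcol : (fun i => C i 0) = C *ᵥ Pi.single 0 1 := by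
    rw [Matrix.mulVec_single_one]; rfl
  have hyb : ∑ i, (C *ᵥ z) i * C i 0 = t * t * z 0 := by
    have : ∑ i, (C *ᵥ z) i * C i 0 = (C *ᵥ z) ⬝ᵥ (fun i => C i 0) := rfl
    rw [this, hcol, mulVec_dot_of hT, htt]
    simp
  have hbb : ∑ i, C i 0 * C i 0 = t * t := by
    have : ∑ i, C i 0 * C i 0 = (fun i => C i 0) ⬝ᵥ (fun i => C i 0) := rfl
    rw [this, hcol, mulVec_dot_of hT, htt]
    simp
  have h00 : C 0 0 = 0 := hC.1 0
  set p := (t / u - 1) * ((C *ᵥ z) 0 / t) + 1 / u * z 0 with hp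
  set q := (t / u - 1) * z 0 - 1 / u * ((C *ᵥ z) 0 / t) with hq
  have hexp : ∀ i, (confU C *ᵥ z) i * (confU C *ᵥ z) i
      = ((C *ᵥ z) i * (C *ᵥ z) i) / (t * t)
        + (if i = 0 then 1 else 0) * (p * p + 2 * ((C *ᵥ z) 0 / t) * p + 2 * (C 0 0 / t) * q * p)
        + (C i 0 * C i 0) * (q * q / (t * t))
        + ((C *ᵥ z) i * C i 0) * (2 * q / (t * t)) := by
    intro i
    rw [confU_mulVec]
    rw [← ht', ← hu', ← hp, ← hq]
    by_cases hi : i = 0
    · subst hi
      simp only [if_true]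
      field_simp
      ring
    · simp only [if_neg hi]
      field_simp
      ring
  have hsum : (confU C *ᵥ z) ⬝ᵥ (confU C *ᵥ z)
      = ((C *ᵥ z) ⬝ᵥ (C *ᵥ z)) / (t * t)
        + (p * p + 2 * ((C *ᵥ z) 0 / t) * p + 2 * (C 0 0 / t) * q * p)
        + (∑ i, C i 0 * C i 0) * (q * q / (t * t))
        + (∑ i, (C *ᵥ z) i * C i 0) * (2 * q / (t * t)) := by
    have e1 : (confU C *ᵥ z) ⬝ᵥ (confU C *ᵥ z)
      = ∑ i, (confU C *ᵥ z) i * (confU C *ᵥ z) i := rfl
    have e2 : (C *ᵥ z) ⬝ᵥ (C *ᵥ z) = ∑ i, (C *ᵥ z) i * (C *ᵥ z) i := rfl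
    rw [e1, e2]
    simp only [hexp, Finset.sum_add_distrib, ← Finset.sum_div, ← Finset.sum_mul]
    simp
  rw [hsum, hyy, hbb, hyb, h00]
  apply le_of_eq
  have hcs : (t / u) * (t / u) + (1 / u) * (1 / u) = 1 := by
    have : (t / u) * (t / u) + (1 / u) * (1 / u) = (t * t + 1) / (u * u) := by
      field_simp
    rw [this, htt, huu]
    exact div_self (by positivity)
  have hzero : t * t * (z ⬝ᵥ z) / (t * t) = z ⬝ᵥ z := by field_simp
  rw [hzero]
  have e3 : t * t * (q * q / (t * t)) = q * q := by field_simp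
  have e4 : t * t * z 0 * (2 * q / (t * t)) = 2 * z 0 * q := by field_simp
  rw [e3, e4, hp, hq]
  generalize (C *ᵥ z) 0 / t = Y
  generalize z 0 = Z
  generalize t / u = c at *
  generalize 1 / u = s at *
  have : (c - 1) ^ 2 + s ^ 2 + 2 * (c - 1) = 0 := by nlinarith
  have e5 : z ⬝ᵥ z + (((c - 1) * Y + s * Z) * ((c - 1) * Y + s * Z)
      + 2 * Y * ((c - 1) * Y + s * Z)
      + 2 * (0 / t) * ((c - 1) * Z - s * Y) * ((c - 1) * Y + s * Z))
      + ((c - 1) * Z - s * Y) * ((c - 1) * Z - s * Y)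
      + 2 * Z * ((c - 1) * Z - s * Y)
      = z ⬝ᵥ z + ((c - 1) ^ 2 + s ^ 2 + 2 * (c - 1)) * (Y ^ 2 + Z ^ 2) := by
    rw [zero_div]; ring
  rw [e5, this]
  ring

/-- The sum of the entries of `M ∘ U`. -/
lemma conf_sum (hk : 0 < k) (hC : ConferenceMat C) :
    ∑ i, ∑ j, confM C i j * confU C i j
      = ((k : ℝ) - 1) * Real.sqrt k + 2 * Real.sqrt ((k : ℝ) + 1) := by
  obtain ⟨ht, htt, hu, huu⟩ := sqrt_facts hk
  have hT := conf_CT hk hC
  have hT' := conf_CT' hC
  set t := Real.sqrt k with ht'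
  set u := Real.sqrt ((k : ℝ) + 1) with hu'
  have h00 : C 0 0 = 0 := hC.1 0
  -- row sums of squares
  have hrow : ∀ i, ∑ j, C i j * C i j = t * t := by
    intro i
    have := congrFun (congrFun hT' i) i
    rw [Matrix.mul_apply] at this
    simp only [Matrix.transpose_apply, Matrix.smul_apply, Matrix.one_apply_eq, smul_eq_mul,
      mul_one] at this
    rw [this, htt]
  have hcolsq : ∑ i, C i 0 * C i 0 = t * t := by
    have := congrFun (congrFun hT 0) 0
    rw [Matrix.mul_apply] at this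
    simp only [Matrix.transpose_apply, Matrix.smul_apply, Matrix.one_apply_eq, smul_eq_mul,
      mul_one] at this
    rw [this, htt]
  -- `∑ C i j * C i 0 * C 0 j = 0`
  have hmix : ∑ i, ∑ j, C i j * (C i 0 * C 0 j) = 0 := by
    have e1 : ∀ i, ∑ j, C i j * (C i 0 * C 0 j) = C i 0 * ((k : ℝ) * if i = 0 then 1 else 0) := by
      intro i
      have := congrFun (congrFun hT' i) 0
      rw [Matrix.mul_apply] at this
      simp only [Matrix.transpose_apply, Matrix.smul_apply, Matrix.one_apply, smul_eq_mul] at this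
      rw [← this, Finset.mul_sum]
      refine Finset.sum_congr rfl fun j _ => by ring
    simp only [e1]
    simp [h00]
  have hdiag : ∀ i j, confM C i j * confU C i j = C i j * confU C i j
      + (if i = j then (if i = 0 then 1 else -(C i 0 * C 0 i)) * confU C i i else 0) := by
    intro i j
    unfold confM
    rw [Matrix.add_apply, Matrix.diagonal_apply, add_mul]
    by_cases hij : i = j
    · subst hij; simp
    · simp [hij]
  have hS1 : ∑ i, ∑ j, C i j * confU C i j = (k + 1) * (t * t) / t + (t / u - 1) * (2 * (t * t) / t) := by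
    have e1 : ∀ i j, C i j * confU C i j = (C i j * C i j) / t
        + (t / u - 1) * ((if i = 0 then 1 else 0) * (C i j * C 0 j / t)
          + (if j = 0 then 1 else 0) * (C i j * C i 0 / t))
        + 1 / u * ((if i = 0 then 1 else 0) * ((if j = 0 then 1 else 0) * C i j)
          - C i j * (C i 0 * C 0 j) / (t * t)) := by
      intro i j
      simp only [confU, Matrix.of_apply]
      rw [← ht', ← hu']
      field_simp
    simp only [e1, Finset.sum_add_distrib, ← Finset.mul_sum, Finset.sum_sub_distrib,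
      ← Finset.sum_div]
    rw [hmix]
    simp only [hrow]
    have e2 : ∑ i, (if i = 0 then (1 : ℝ) else 0) * ((∑ j, C i j * C 0 j) / t) = t * t / t := by
      simp [hrow]
    have e3 : ∑ i, ∑ j, (if j = 0 then (1 : ℝ) else 0) * (C i j * C i 0 / t) = t * t / t := by
      simp only [ite_mul, one_mul, zero_mul, Finset.sum_ite_eq', Finset.mem_univ, if_true]
      rw [← Finset.sum_div, hcolsq]
    have e4 : ∑ i : Fin (k + 1), (if i = 0 then (1 : ℝ) else 0) *
        ∑ j, (if j = 0 then (1 : ℝ) else 0) * C i j = 0 := by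
      simp [h00]
    rw [e2, e3, e4]
    simp only [Finset.sum_const, Finset.card_univ, Fintype.card_fin, nsmul_eq_mul]
    push_cast
    ring
  have hUii : ∀ i, i ≠ 0 → confU C i i = - (1 / u) * (C i 0 * C 0 i) / (t * t) := by
    intro i hi
    simp only [confU, Matrix.of_apply, if_neg hi, hC.1 i]
    rw [← ht', ← hu']
    field_simp
    ring
  have hU00 : confU C 0 0 = 1 / u := by
    simp only [confU, Matrix.of_apply, if_true, h00]
    rw [← hu']
    simp
  have hS2 : ∑ i, (if i = 0 then 1 else -(C i 0 * C 0 i)) * confU C i i = 2 / u := by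
    have e1 : ∀ i, (if i = 0 then 1 else -(C i 0 * C 0 i)) * confU C i i
        = (if i = 0 then 1 / u - 1 / (u * (t * t)) else 0) + 1 / (u * (t * t)) := by
      intro i
      by_cases hi : i = 0
      · subst hi
        rw [hU00]; simp
      · simp only [if_neg hi]
        rw [hUii i hi]
        have h1 : C i 0 * C i 0 = 1 := by
          rcases hC.2.1 i 0 hi with h | h <;> rw [h] <;> norm_num
        have h2 : C 0 i * C 0 i = 1 := by
          rcases hC.2.1 0 i (Ne.symm hi) with h | h <;> rw [h] <;> norm_num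
        calc -(C i 0 * C 0 i) * (-(1 / u) * (C i 0 * C 0 i) / (t * t))
            = (C i 0 * C i 0) * (C 0 i * C 0 i) * (1 / (u * (t * t))) := by field_simp
          _ = _ := by rw [h1, h2]; ring
    simp only [e1, Finset.sum_add_distrib, Finset.sum_ite_eq', Finset.mem_univ, if_true,
      Finset.sum_const, Finset.card_univ, Fintype.card_fin, nsmul_eq_mul]
    push_cast
    have hkk : (k : ℝ) = t * t := htt.symm
    rw [hkk]
    field_simp
    ring
  have hfin : ∑ i, ∑ j, confM C i j * confU C i j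
      = (∑ i, ∑ j, C i j * confU C i j) + ∑ i, (if i = 0 then 1 else -(C i 0 * C 0 i)) * confU C i i := by
    simp only [hdiag, Finset.sum_add_distrib]
    congr 1
    refine Finset.sum_congr rfl fun i _ => ?_
    simp
  rw [hfin, hS1, hS2]
  have hk' : (k : ℝ) = u * u - 1 := by rw [huu]; ring
  have e : (k + 1 : ℝ) * (t * t) / t + (t / u - 1) * (2 * (t * t) / t) + 2 / u
      = ((k : ℝ) - 1) * t + 2 * ((t * t + 1) / u) := by
    field_simp
    ring
  rw [e, htt, show ((k : ℝ) + 1) / u = u by rw [← huu]; field_simp]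

/-- If `k ≥ 1` and there is a conference matrix of order `k + 1`, then `r_{k+1}^2 > k`. -/
lemma rMax_of_conference (hk : 0 < k) (hC : ConferenceMat C) : (k : ℝ) < rMax (k + 1) ^ 2 := by
  obtain ⟨ht, htt, hu, huu⟩ := sqrt_facts hk
  have h1 := le_rMax_sq_of (isSign_confM hC) (opNorm_confU_le hk hC) _
    (const_dot (Nat.succ_pos k))
  refine lt_of_lt_of_le ?_ h1
  set x : Fin (k + 1) → ℝ := fun _ => 1 / Real.sqrt ((k + 1 : ℕ) : ℝ) with hx
  have hxx : x ⬝ᵥ x = 1 := const_dot (Nat.succ_pos k)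
  have h2 := dot_sq_le x ((confM C ⊙ confU C) *ᵥ x)
  rw [hxx, one_mul] at h2
  refine lt_of_lt_of_le ?_ h2
  have h3 : x ⬝ᵥ ((confM C ⊙ confU C) *ᵥ x)
      = (((k : ℝ) - 1) * Real.sqrt k + 2 * Real.sqrt ((k : ℝ) + 1)) / (k + 1) := by
    rw [← conf_sum hk hC]
    have e1 : x ⬝ᵥ ((confM C ⊙ confU C) *ᵥ x)
        = ∑ i, ∑ j, (confM C i j * confU C i j) / (k + 1) := by
      simp only [dotProduct, mulVec, Matrix.hadamard_apply, Finset.mul_sum, hx]
      refine Finset.sum_congr rfl fun i _ => Finset.sum_congr rfl fun j _ => ?_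
      have e2 : Real.sqrt ((k + 1 : ℕ) : ℝ) = Real.sqrt ((k : ℝ) + 1) := by push_cast; rfl
      rw [e2]
      generalize Real.sqrt ((k : ℝ) + 1) = u at hu huu
      rw [← huu]
      field_simp
    rw [e1]
    simp only [← Finset.sum_div]
  rw [h3]
  have hk1 : (1 : ℝ) ≤ k := by exact_mod_cast hk
  have htu : Real.sqrt k < Real.sqrt ((k : ℝ) + 1) := Real.sqrt_lt_sqrt (by linarith) (by linarith)
  have h4 : Real.sqrt k < (((k : ℝ) - 1) * Real.sqrt k + 2 * Real.sqrt ((k : ℝ) + 1)) / (k + 1) := by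
    rw [lt_div_iff₀ (by linarith)]
    nlinarith
  calc (k : ℝ) = Real.sqrt k ^ 2 := by rw [sq, htt]
    _ < _ := by
      exact pow_lt_pow_left₀ h4 ht.le (by norm_num)

end Conference

end Pool.Agent.H.MP_abf7f7_an
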