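import Mathlib

set_option autoImplicit false

namespace Pool.Agent.H.MP_abf7f7_an

open Matrix

/-- The operator norm of a real `n × n` matrix acting on Euclidean space `ℝ^n`. -/
noncomputable def opNorm {n : ℕ} (A : Matrix (Fin n) (Fin n) ℝ) : ℝ :=
  ‖Matrix.toEuclideanCLM (𝕜 := ℝ) A‖

/-- The Schur (multiplier) norm: the supremum (a maximum) of `‖M ∘ A‖` over all real matrices `A`
with `‖A‖ ≤ 1`, where `∘` is the entrywise product. -/
noncomputable def schurNorm {n : ℕ} (M : Matrix (Fin n) (Fin n) ℝ) : ℝ :=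
  sSup {t : ℝ | ∃ A : Matrix (Fin n) (Fin n) ℝ, opNorm A ≤ 1 ∧ t = opNorm (M ⊙ A)}

/-- All entries are `1` or `-1`. -/
def IsSign {m n : ℕ} (M : Matrix (Fin m) (Fin n) ℝ) : Prop := ∀ i j, M i j = 1 ∨ M i j = -1

/-- `r_n`: the supremum (a maximum) of the Schur norm over all `n × n` sign matrices. -/
noncomputable def rMax (n : ℕ) : ℝ :=
  sSup {t : ℝ | ∃ M : Matrix (Fin n) (Fin n) ℝ, IsSign M ∧ t = schurNorm M}

/-! ### Basic facts on the operator norm -/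

lemma norm_toLp {n : ℕ} (x : Fin n → ℝ) :
    ‖(WithLp.toLp 2 x : EuclideanSpace ℝ (Fin n))‖ = Real.sqrt (x ⬝ᵥ x) := by
  rw [EuclideanSpace.norm_eq]
  congr 1
  simp only [dotProduct, Real.norm_eq_abs, sq_abs]
  exact Finset.sum_congr rfl fun i _ => by ring

lemma dot_self_nonneg {n : ℕ} (x : Fin n → ℝ) : 0 ≤ x ⬝ᵥ x :=
  Finset.sum_nonneg fun i _ => mul_self_nonneg (x i)

lemma opNorm_nonneg {n : ℕ} (A : Matrix (Fin n) (Fin n) ℝ) : 0 ≤ opNorm A := norm_nonneg _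

lemma sqrt_mulVec_le {n : ℕ} (A : Matrix (Fin n) (Fin n) ℝ) (x : Fin n → ℝ) :
    Real.sqrt ((A *ᵥ x) ⬝ᵥ (A *ᵥ x)) ≤ opNorm A * Real.sqrt (x ⬝ᵥ x) := by
  rw [← norm_toLp, ← norm_toLp, ← Matrix.toEuclideanCLM_toLp]
  exact (Matrix.toEuclideanCLM (𝕜 := ℝ) A).le_opNorm _

lemma opNorm_le {n : ℕ} (A : Matrix (Fin n) (Fin n) ℝ) {c : ℝ} (hc : 0 ≤ c)
    (h : ∀ x, (A *ᵥ x) ⬝ᵥ (A *ᵥ x) ≤ c ^ 2 * (x ⬝ᵥ x)) : opNorm A ≤ c := by
  refine ContinuousLinearMap.opNorm_le_bound _ hc fun x => ?_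
  have hx : x = WithLp.toLp 2 (x.ofLp) := rfl
  rw [hx, Matrix.toEuclideanCLM_toLp, norm_toLp, norm_toLp]
  rw [← Real.sqrt_sq hc, ← Real.sqrt_mul (sq_nonneg c)]
  exact Real.sqrt_le_sqrt (h _)

lemma mulVec_dot_le {n : ℕ} {A : Matrix (Fin n) (Fin n) ℝ} {c : ℝ} (hA : opNorm A ≤ c)
    (x : Fin n → ℝ) : (A *ᵥ x) ⬝ᵥ (A *ᵥ x) ≤ c ^ 2 * (x ⬝ᵥ x) := by
  have h := (sqrt_mulVec_le A x).trans
    (mul_le_mul_of_nonneg_right hA (Real.sqrt_nonneg (x ⬝ᵥ x)))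
  have h1 := Real.sqrt_nonneg ((A *ᵥ x) ⬝ᵥ (A *ᵥ x))
  have h2 := pow_le_pow_left₀ h1 h 2
  rwa [Real.sq_sqrt (dot_self_nonneg _), mul_pow, Real.sq_sqrt (dot_self_nonneg _)] at h2

lemma le_opNorm_sq {n : ℕ} (A : Matrix (Fin n) (Fin n) ℝ) (x : Fin n → ℝ)
    (hx : x ⬝ᵥ x = 1) : (A *ᵥ x) ⬝ᵥ (A *ᵥ x) ≤ opNorm A ^ 2 := by
  have := mulVec_dot_le (le_refl (opNorm A)) x
  rwa [hx, mul_one] at this

/-- Cauchy–Schwarz for the dot product. -/
lemma dot_sq_le {n : ℕ} (x y : Fin n → ℝ) : (x ⬝ᵥ y) ^ 2 ≤ (x ⬝ᵥ x) * (y ⬝ᵥ y) := by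
  have := Finset.sum_mul_sq_le_sq_mul_sq Finset.univ x y
  simp only [dotProduct]
  simpa [sq] using this

/-- The transposed matrix of a contraction is a contraction. -/
lemma vecMul_dot_le {n : ℕ} {A : Matrix (Fin n) (Fin n) ℝ} (hA : opNorm A ≤ 1)
    (y : Fin n → ℝ) : (y ᵥ* A) ⬝ᵥ (y ᵥ* A) ≤ y ⬝ᵥ y := by
  set z := y ᵥ* A with hz
  have h1 : z ⬝ᵥ z = y ⬝ᵥ (A *ᵥ z) := by
    rw [Matrix.dotProduct_mulVec, ← hz]
  have h2 := dot_sq_le y (A *ᵥ z)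
  have h3 := mulVec_dot_le hA z
  rw [one_pow, one_mul] at h3
  have h4 := dot_self_nonneg y
  have h5 := dot_self_nonneg z
  rcases h5.eq_or_lt with h | h
  · rw [← h]; exact h4
  · have h6 : (z ⬝ᵥ z) ^ 2 ≤ (y ⬝ᵥ y) * (z ⬝ᵥ z) := by
      calc (z ⬝ᵥ z) ^ 2 = (y ⬝ᵥ (A *ᵥ z)) ^ 2 := by rw [← h1]
        _ ≤ (y ⬝ᵥ y) * ((A *ᵥ z) ⬝ᵥ (A *ᵥ z)) := h2
        _ ≤ (y ⬝ᵥ y) * (z ⬝ᵥ z) := mul_le_mul_of_nonneg_left h3 h4
    rw [sq] at h6
    exact le_of_mul_le_mul_right h6 h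

lemma sign_sq {m n : ℕ} {M : Matrix (Fin m) (Fin n) ℝ} (hM : IsSign M) (i : Fin m) (j : Fin n) :
    M i j * M i j = 1 := by
  rcases hM i j with h | h <;> rw [h] <;> norm_num

/-- Norm bound from a bound on the bilinear form. -/
lemma opNorm_le_of_bilin {n : ℕ} (B : Matrix (Fin n) (Fin n) ℝ) {c : ℝ} (hc : 0 ≤ c)
    (h : ∀ x y : Fin n → ℝ, (y ⬝ᵥ (B *ᵥ x)) ^ 2 ≤ c ^ 2 * (x ⬝ᵥ x) * (y ⬝ᵥ y)) :
    opNorm B ≤ c := by
  refine opNorm_le B hc fun x => ?_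
  have h1 := h x (B *ᵥ x)
  have h2 := dot_self_nonneg (B *ᵥ x)
  rcases h2.eq_or_lt with h0 | h0
  · rw [← h0]; exact mul_nonneg (sq_nonneg c) (dot_self_nonneg x)
  · rw [sq] at h1
    exact le_of_mul_le_mul_right h1 h0

/-- The key estimate. If `M` is a sign matrix, `A` a contraction and `w` is a unit vector with
`w ᵥ* N = 0` for `N = D_y M D_x`, then `(y · (M ∘ A) x)^2 ≤ (n - 1) ‖x‖^2 ‖y‖^2`. -/
lemma bilin_le {n : ℕ} {M A : Matrix (Fin n) (Fin n) ℝ} (hM : IsSign M) (hA : opNorm A ≤ 1)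
    (x y w : Fin n → ℝ) (hw : w ⬝ᵥ w = 1) (hwN : ∀ j, ∑ i, w i * (y i * M i j * x j) = 0) :
    (y ⬝ᵥ ((M ⊙ A) *ᵥ x)) ^ 2 ≤ ((n : ℝ) - 1) * (x ⬝ᵥ x) * (y ⬝ᵥ y) := by
  -- the rows of `P = I - w wᵀ`
  let p : Fin n → Fin n → ℝ := fun i k => (if i = k then 1 else 0) - w i * w k
  -- `B i = p i ᵥ* A` is the `i`-th row of `P A`
  let B : Fin n → Fin n → ℝ := fun i => p i ᵥ* A
  have hB : ∀ i j, B i j = A i j - w i * ∑ k, w k * A k j := by
    intro i j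
    change ∑ k, p i k * A k j = _
    simp only [p, sub_mul, Finset.sum_sub_distrib, ite_mul, one_mul, zero_mul,
      Finset.sum_ite_eq, Finset.mem_univ, if_true, Finset.mul_sum, mul_assoc]
  have h1 : y ⬝ᵥ ((M ⊙ A) *ᵥ x) = ∑ i, ∑ j, B i j * (y i * M i j * x j) := by
    have e1 : y ⬝ᵥ ((M ⊙ A) *ᵥ x) = ∑ i, ∑ j, A i j * (y i * M i j * x j) := by
      simp only [dotProduct, mulVec, Matrix.hadamard_apply, Finset.mul_sum]
      refine Finset.sum_congr rfl fun i _ => Finset.sum_congr rfl fun j _ => by ring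
    have e2 : ∑ i, ∑ j, B i j * (y i * M i j * x j) = (∑ i, ∑ j, A i j * (y i * M i j * x j))
        - ∑ j, (∑ k, w k * A k j) * ∑ i, w i * (y i * M i j * x j) := by
      have e3 : ∑ j, (∑ k, w k * A k j) * ∑ i, w i * (y i * M i j * x j)
          = ∑ i, ∑ j, w i * (∑ k, w k * A k j) * (y i * M i j * x j) := by
        rw [Finset.sum_comm]
        refine Finset.sum_congr rfl fun j _ => ?_
        rw [Finset.mul_sum]
        refine Finset.sum_congr rfl fun i _ => by ring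
      rw [e3, ← Finset.sum_sub_distrib]
      refine Finset.sum_congr rfl fun i _ => ?_
      rw [← Finset.sum_sub_distrib]
      refine Finset.sum_congr rfl fun j _ => ?_
      rw [hB]; ring
    rw [e2, e1]
    simp [hwN]
  have h2 : ∑ i, ∑ j, B i j ^ 2 ≤ (n : ℝ) - 1 := by
    calc ∑ i, ∑ j, B i j ^ 2 = ∑ i, (p i ᵥ* A) ⬝ᵥ (p i ᵥ* A) := by
          refine Finset.sum_congr rfl fun i _ => ?_
          simp only [dotProduct, B]
          exact Finset.sum_congr rfl fun j _ => by ring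
      _ ≤ ∑ i, p i ⬝ᵥ p i := Finset.sum_le_sum fun i _ => vecMul_dot_le hA (p i)
      _ = (n : ℝ) - 1 := by
          have e1 : ∀ i, p i ⬝ᵥ p i = 1 - w i * w i := by
            intro i
            simp only [dotProduct, p]
            have : ∀ k, ((if i = k then (1 : ℝ) else 0) - w i * w k)
                * ((if i = k then (1 : ℝ) else 0) - w i * w k)
                = (if i = k then (1 : ℝ) else 0) - 2 * (if i = k then w i * w k else 0)
                  + w i * w i * (w k * w k) := by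
              intro k
              by_cases h : i = k <;> simp [h] <;> ring
            simp only [this, Finset.sum_add_distrib, Finset.sum_sub_distrib, ← Finset.mul_sum,
              Finset.sum_ite_eq, Finset.mem_univ, if_true]
            have hw' : ∑ k, w k * w k = 1 := hw
            rw [hw']; ring
          simp only [e1, Finset.sum_sub_distrib]
          have hw' : ∑ k, w k * w k = 1 := hw
          rw [hw']; simp
  have h3 : (∑ i, ∑ j, B i j * (y i * M i j * x j)) ^ 2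
      ≤ (∑ i, ∑ j, B i j ^ 2) * ∑ i, ∑ j, (y i * M i j * x j) ^ 2 := by
    have := Finset.sum_mul_sq_le_sq_mul_sq (Finset.univ ×ˢ Finset.univ)
      (fun q : Fin n × Fin n => B q.1 q.2) (fun q => y q.1 * M q.1 q.2 * x q.2)
    simpa only [Finset.sum_product] using this
  have h4 : ∑ i, ∑ j, (y i * M i j * x j) ^ 2 = (x ⬝ᵥ x) * (y ⬝ᵥ y) := by
    have : ∀ i j, (y i * M i j * x j) ^ 2 = (x j * x j) * (y i * y i) := by
      intro i j
      have := sign_sq hM i j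
      calc (y i * M i j * x j) ^ 2 = (M i j * M i j) * ((x j * x j) * (y i * y i)) := by ring
        _ = _ := by rw [this, one_mul]
    simp only [this, dotProduct, Finset.sum_mul_sum]
    rw [Finset.sum_comm]
  rw [h1]
  calc (∑ i, ∑ j, B i j * (y i * M i j * x j)) ^ 2
      ≤ (∑ i, ∑ j, B i j ^ 2) * ∑ i, ∑ j, (y i * M i j * x j) ^ 2 := h3
    _ ≤ ((n : ℝ) - 1) * ∑ i, ∑ j, (y i * M i j * x j) ^ 2 := by
        refine mul_le_mul_of_nonneg_right h2 ?_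
        exact Finset.sum_nonneg fun i _ => Finset.sum_nonneg fun j _ => sq_nonneg _
    _ = ((n : ℝ) - 1) * (x ⬝ᵥ x) * (y ⬝ᵥ y) := by rw [h4]; ring

/-- A singular sign matrix has `‖M ∘ A‖ ≤ √(n-1)` for every contraction `A`. -/
lemma opNorm_hadamard_le_of_det_eq_zero {n : ℕ} {M A : Matrix (Fin n) (Fin n) ℝ} (hM : IsSign M)
    (hdet : M.det = 0) (hA : opNorm A ≤ 1) : opNorm (M ⊙ A) ≤ Real.sqrt ((n : ℝ) - 1) := by
  have hn : n ≠ 0 := by
    rintro rfl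
    simp at hdet
  have hn1 : (0 : ℝ) ≤ (n : ℝ) - 1 := by
    have : (1 : ℝ) ≤ n := by exact_mod_cast Nat.one_le_iff_ne_zero.mpr hn
    linarith
  refine opNorm_le_of_bilin _ (Real.sqrt_nonneg _) fun x y => ?_
  rw [Real.sq_sqrt hn1]
  -- find a unit vector `w` with `w D_y M D_x = 0`
  obtain ⟨w0, hw0, hw0M⟩ : ∃ w0 : Fin n → ℝ, w0 ≠ 0 ∧
      w0 ᵥ* (Matrix.of fun i j => y i * M i j * x j) = 0 := by
    rw [Matrix.exists_vecMul_eq_zero_iff]
    have : (Matrix.of fun i j => y i * M i j * x j)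
        = Matrix.diagonal y * M * Matrix.diagonal x := by
      ext i j
      rw [Matrix.mul_diagonal, Matrix.diagonal_mul]
      rfl
    rw [this, Matrix.det_mul, Matrix.det_mul, hdet]
    ring
  have hpos : 0 < w0 ⬝ᵥ w0 := by
    refine lt_of_le_of_ne (dot_self_nonneg w0) fun h => hw0 ?_
    exact dotProduct_self_eq_zero.mp h.symm
  set s := Real.sqrt (w0 ⬝ᵥ w0) with hs
  have hspos : 0 < s := Real.sqrt_pos.mpr hpos
  have hss : s * s = w0 ⬝ᵥ w0 := Real.mul_self_sqrt hpos.le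
  refine bilin_le hM hA x y (fun i => w0 i / s) ?_ ?_
  · simp only [dotProduct, div_mul_div_comm, ← Finset.sum_div]
    rw [hss]
    exact div_self hpos.ne'
  · intro j
    have := congrFun hw0M j
    simp only [vecMul, dotProduct, Matrix.of_apply, Pi.zero_apply] at this
    simp only [div_mul_eq_mul_div, ← Finset.sum_div]
    rw [this, zero_div]

/-- For a sign matrix `‖M ∘ A‖ ≤ √n` for every contraction `A`. -/
lemma opNorm_hadamard_le {n : ℕ} {M A : Matrix (Fin n) (Fin n) ℝ} (hM : IsSign M)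
    (hA : opNorm A ≤ 1) : opNorm (M ⊙ A) ≤ Real.sqrt n := by
  refine opNorm_le _ (Real.sqrt_nonneg _) fun x => ?_
  rw [Real.sq_sqrt (Nat.cast_nonneg n)]
  have hrow : ∀ i, ∑ j, A i j ^ 2 ≤ 1 := by
    intro i
    have h := vecMul_dot_le hA (Pi.single i 1)
    simp only [Matrix.single_one_vecMul, dotProduct_single, Pi.single_eq_same, mul_one] at h
    simp only [dotProduct, Matrix.row_apply] at h
    simpa [sq] using h
  have h1 : ∀ i, ((M ⊙ A) *ᵥ x) i * ((M ⊙ A) *ᵥ x) i ≤ x ⬝ᵥ x := by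
    intro i
    have e1 : ((M ⊙ A) *ᵥ x) i * ((M ⊙ A) *ᵥ x) i = (∑ j, (M i j * A i j) * x j) ^ 2 := by
      simp only [mulVec, dotProduct, Matrix.hadamard_apply]
      ring
    rw [e1]
    have e2 := Finset.sum_mul_sq_le_sq_mul_sq Finset.univ (fun j => M i j * A i j) x
    have e3 : ∑ j, (M i j * A i j) ^ 2 = ∑ j, A i j ^ 2 := by
      refine Finset.sum_congr rfl fun j _ => ?_
      rw [mul_pow, sq (M i j), sign_sq hM, one_mul]
    have e4 : ∑ j, x j ^ 2 = x ⬝ᵥ x := by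
      simp only [dotProduct]
      exact Finset.sum_congr rfl fun j _ => by ring
    rw [e3, e4] at e2
    calc (∑ j, (M i j * A i j) * x j) ^ 2 ≤ (∑ j, A i j ^ 2) * (x ⬝ᵥ x) := e2
      _ ≤ 1 * (x ⬝ᵥ x) := mul_le_mul_of_nonneg_right (hrow i) (dot_self_nonneg x)
      _ = x ⬝ᵥ x := one_mul _
  calc ((M ⊙ A) *ᵥ x) ⬝ᵥ ((M ⊙ A) *ᵥ x) = ∑ i, ((M ⊙ A) *ᵥ x) i * ((M ⊙ A) *ᵥ x) i := rfl
    _ ≤ ∑ _i : Fin n, x ⬝ᵥ x := Finset.sum_le_sum fun i _ => h1 i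
    _ = n * (x ⬝ᵥ x) := by simp

lemma schur_set_nonempty {n : ℕ} (M : Matrix (Fin n) (Fin n) ℝ) :
    {t : ℝ | ∃ A : Matrix (Fin n) (Fin n) ℝ, opNorm A ≤ 1 ∧ t = opNorm (M ⊙ A)}.Nonempty := by
  refine ⟨_, 0, ?_, rfl⟩
  unfold opNorm
  simp

lemma opNorm_le_schurNorm {n : ℕ} {M A : Matrix (Fin n) (Fin n) ℝ} (hM : IsSign M)
    (hA : opNorm A ≤ 1) : opNorm (M ⊙ A) ≤ schurNorm M := by
  refine le_csSup ⟨Real.sqrt n, ?_⟩ ⟨A, hA, rfl⟩
  rintro t ⟨B, hB, rfl⟩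
  exact opNorm_hadamard_le hM hB

lemma schurNorm_le_sqrt {n : ℕ} {M : Matrix (Fin n) (Fin n) ℝ} (hM : IsSign M) :
    schurNorm M ≤ Real.sqrt n := by
  refine csSup_le (schur_set_nonempty M) ?_
  rintro t ⟨B, hB, rfl⟩
  exact opNorm_hadamard_le hM hB

lemma schurNorm_le_of_det_eq_zero {n : ℕ} {M : Matrix (Fin n) (Fin n) ℝ} (hM : IsSign M)
    (hdet : M.det = 0) : schurNorm M ≤ Real.sqrt ((n : ℝ) - 1) := by
  refine csSup_le (schur_set_nonempty M) ?_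
  rintro t ⟨B, hB, rfl⟩
  exact opNorm_hadamard_le_of_det_eq_zero hM hdet hB

lemma schurNorm_le_rMax {n : ℕ} {M : Matrix (Fin n) (Fin n) ℝ} (hM : IsSign M) :
    schurNorm M ≤ rMax n := by
  refine le_csSup ⟨Real.sqrt n, ?_⟩ ⟨M, hM, rfl⟩
  rintro t ⟨B, hB, rfl⟩
  exact schurNorm_le_sqrt hB

lemma finite_sign (n : ℕ) : {M : Matrix (Fin n) (Fin n) ℝ | IsSign M}.Finite := by
  have h : {M : Matrix (Fin n) (Fin n) ℝ | IsSign M}
      ⊆ Set.range (fun b : Fin n → Fin n → Bool => (Matrix.of fun i j => if b i j then (1 : ℝ)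
        else -1)) := by
    intro M hM
    classical
    refine ⟨fun i j => decide (M i j = 1), ?_⟩
    ext i j
    rcases hM i j with h | h
    · simp [h]
    · simp [h]; norm_num
  exact (Set.finite_range _).subset h

/-- The maximum `r_n` is attained. -/
lemma exists_maximizer (n : ℕ) :
    ∃ M : Matrix (Fin n) (Fin n) ℝ, IsSign M ∧ schurNorm M = rMax n := by
  have hne : {t : ℝ | ∃ M : Matrix (Fin n) (Fin n) ℝ, IsSign M ∧ t = schurNorm M}.Nonempty :=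
    ⟨_, Matrix.of fun _ _ => 1, fun _ _ => Or.inl rfl, rfl⟩
  have hfin : {t : ℝ | ∃ M : Matrix (Fin n) (Fin n) ℝ, IsSign M ∧ t = schurNorm M}.Finite := by
    have : {t : ℝ | ∃ M : Matrix (Fin n) (Fin n) ℝ, IsSign M ∧ t = schurNorm M}
        = schurNorm '' {M : Matrix (Fin n) (Fin n) ℝ | IsSign M} := by
      ext t
      constructor
      · rintro ⟨M, hM, rfl⟩; exact ⟨M, hM, rfl⟩
      · rintro ⟨M, hM, rfl⟩; exact ⟨M, hM, rfl⟩
    rw [this]
    exact (finite_sign n).image _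
  obtain ⟨M, hM, h⟩ := hne.csSup_mem hfin
  exact ⟨M, hM, h.symm⟩

/-- If `r_n > √(n-1)` then every maximizer is invertible. -/
lemma det_ne_zero_of_lt {n : ℕ} (h : Real.sqrt ((n : ℝ) - 1) < rMax n)
    {M : Matrix (Fin n) (Fin n) ℝ} (hM : IsSign M) (hr : schurNorm M = rMax n) : M.det ≠ 0 := by
  intro hdet
  have := schurNorm_le_of_det_eq_zero hM hdet
  rw [hr] at this
  linarith

/-- Lower bound for `r_n` from a contraction, a sign matrix and a unit test vector. -/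
lemma le_rMax_sq_of {n : ℕ} {M A : Matrix (Fin n) (Fin n) ℝ} (hM : IsSign M) (hA : opNorm A ≤ 1)
    (x : Fin n → ℝ) (hx : x ⬝ᵥ x = 1) :
    ((M ⊙ A) *ᵥ x) ⬝ᵥ ((M ⊙ A) *ᵥ x) ≤ rMax n ^ 2 := by
  have h1 := le_opNorm_sq (M ⊙ A) x hx
  have h2 := (opNorm_le_schurNorm hM hA).trans (schurNorm_le_rMax hM)
  exact h1.trans (pow_le_pow_left₀ (opNorm_nonneg _) h2 2)

lemma rMax_nonneg (n : ℕ) : 0 ≤ rMax n := by
  obtain ⟨M, hM, h⟩ := exists_maximizer n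
  rw [← h]
  have h0 : opNorm (0 : Matrix (Fin n) (Fin n) ℝ) ≤ 1 := by unfold opNorm; simp
  exact (opNorm_nonneg _).trans (opNorm_le_schurNorm hM h0)

lemma sqrt_lt_rMax {n : ℕ} {c : ℝ} (h : c < rMax n ^ 2) (hn : 0 < rMax n) :
    Real.sqrt c < rMax n := (Real.sqrt_lt' hn).mpr h

end Pool.Agent.H.MP_abf7f7_an
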