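import Pool.Agent.H.MP_abf7f7_an.Constr
import Mathlib.LinearAlgebra.Matrix.Kronecker

/-!
# EhA: sign matrices that attain the Ehlich-Wojtas bound

Lower bounds of `rMax` from an orthogonal matrix, index types arbitrary.
-/

set_option autoImplicit false

namespace Pool.Agent.H.MP_abf7f7_an

open Matrix
open scoped Kronecker

/-- All entries are `1` or `-1`, arbitrary index type. -/
def SignOn {ι : Type} (M : Matrix ι ι ℝ) : Prop := ∀ i j, M i j = 1 ∨ M i j = -1

/-- Lower bound from an orthogonal matrix, with the constant test vectors. -/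
lemma EhA_fin {n : ℕ} (hn : 0 < n) {M U : Matrix (Fin n) (Fin n) ℝ} (hM : IsSign M)
    (hU : U * Uᵀ = 1) : ((∑ i, ∑ j, M i j * U i j) / n) ^ 2 ≤ rMax n ^ 2 := by
  have hnR : (0 : ℝ) < n := by exact_mod_cast hn
  have hU2 : Uᵀ * U = 1 := _root_.mul_eq_one_comm.mp hU
  have hop : opNorm U ≤ 1 := by
    refine opNorm_le _ zero_le_one fun x => ?_
    rw [one_pow, one_mul]
    have := mulVec_dot_of (c := 1) (by rw [hU2, one_smul]) x x
    rw [this, one_mul]
  have h1 := le_rMax_sq_of hM hop _ (const_dot hn)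
  refine le_trans ?_ h1
  set x : Fin n → ℝ := fun _ => 1 / Real.sqrt n with hx
  have hxx : x ⬝ᵥ x = 1 := const_dot hn
  have h2 := dot_sq_le x ((M ⊙ U) *ᵥ x)
  rw [hxx, one_mul] at h2
  refine le_trans (le_of_eq ?_) h2
  congr 1
  have hs : Real.sqrt n * Real.sqrt n = n := Real.mul_self_sqrt hnR.le
  have hs0 : Real.sqrt n ≠ 0 := (Real.sqrt_pos.mpr hnR).ne'
  simp only [dotProduct, mulVec, Matrix.hadamard_apply, Finset.mul_sum, hx, Finset.sum_div]
  refine Finset.sum_congr rfl fun i _ => Finset.sum_congr rfl fun j _ => ?_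
  generalize Real.sqrt n = u at hs hs0
  rw [← hs]
  field_simp

lemma EhA_gen {ι : Type} [Fintype ι] [DecidableEq ι] {n : ℕ} (hn : 0 < n)
    (hc : Fintype.card ι = n) {M U : Matrix ι ι ℝ} (hM : SignOn M) (hU : U * Uᵀ = 1) :
    ((∑ i, ∑ j, M i j * U i j) / n) ^ 2 ≤ rMax n ^ 2 := by
  let e : ι ≃ Fin n := Fintype.equivFinOfCardEq hc
  have h1 := EhA_fin (n := n) hn (M := M.submatrix e.symm e.symm) (U := U.submatrix e.symm e.symm)
    (fun i j => hM _ _) (by
      rw [Matrix.transpose_submatrix, Matrix.submatrix_mul_equiv, hU, Matrix.submatrix_one_equiv])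
  refine le_trans (le_of_eq ?_) h1
  congr 2
  rw [← e.symm.sum_comp]
  refine Finset.sum_congr rfl fun i _ => ?_
  rw [← e.symm.sum_comp]
  rfl

/-- `M Mᵀ = (n - 2) I + 2 N`, where `N` is symmetric with `N² = (n/2) N` and diagonal `1`: the sum
`⟨M, U⟩` for the polar factor `U` of `M`. -/
lemma EhA_polar {ι : Type} [Fintype ι] [DecidableEq ι] {v : ℝ} (hv : 1 < v)
    {M N : Matrix ι ι ℝ} (hN : Nᵀ = N) (hNN : N * N = v • N) (hNd : ∀ i, N i i = 1)
    (hcard : (Fintype.card ι : ℝ) = 2 * v)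
    (hM : M * Mᵀ = (2 * v - 2) • (1 : Matrix ι ι ℝ) + (2 : ℝ) • N) :
    ∃ U : Matrix ι ι ℝ, U * Uᵀ = 1 ∧ ∑ i, ∑ j, M i j * U i j =
      (2 * v - 2) * Real.sqrt (2 * v - 2) + 2 * Real.sqrt (4 * v - 2) := by
  have hs : 0 < Real.sqrt (2 * v - 2) := Real.sqrt_pos.mpr (by linarith)
  have ht : 0 < Real.sqrt (4 * v - 2) := Real.sqrt_pos.mpr (by linarith)
  have hss : Real.sqrt (2 * v - 2) * Real.sqrt (2 * v - 2) = 2 * v - 2 :=
    Real.mul_self_sqrt (by linarith)
  have htt : Real.sqrt (4 * v - 2) * Real.sqrt (4 * v - 2) = 4 * v - 2 :=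
    Real.mul_self_sqrt (by linarith)
  generalize Real.sqrt (2 * v - 2) = s at hs hss
  generalize Real.sqrt (4 * v - 2) = t at ht htt
  have hv0 : v ≠ 0 := by linarith
  set a : ℝ := 1 / s with ha
  set b : ℝ := (1 / t - 1 / s) / v with hb
  have hbv : b * v = 1 / t - 1 / s := by rw [hb]; field_simp
  set W : Matrix ι ι ℝ := a • (1 : Matrix ι ι ℝ) + b • N with hW
  have hWT : Wᵀ = W := by
    rw [hW, Matrix.transpose_add, Matrix.transpose_smul, Matrix.transpose_smul,
      Matrix.transpose_one, hN]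
  -- `W * (M Mᵀ) = s • 1 + ((t - s) / v) • N`
  have hWG : W * (M * Mᵀ) = s • (1 : Matrix ι ι ℝ) + ((t - s) / v) • N := by
    rw [hM, hW]
    rw [Matrix.add_mul, Matrix.mul_add, Matrix.mul_add]
    simp only [Matrix.smul_mul, Matrix.mul_smul, Matrix.one_mul, Matrix.mul_one, smul_smul, hNN]
    have e1 : a * (2 * v - 2) = s := by
      rw [ha, ← hss]; field_simp
    have e2 : a * 2 + (b * (2 * v - 2) + b * (2 * v)) = (t - s) / v := by
      have e3 : b * (2 * v - 2) + b * (2 * v) = b * (4 * v - 2) := by ring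
      rw [e3, hb, ha]
      have e4 : (1 / t - 1 / s) / v * (4 * v - 2) = (t - (4 * v - 2) / s) / v := by
        have : (4 * v - 2) = t * t := htt.symm
        rw [this]
        field_simp
      rw [e4]
      have e5 : (4 * v - 2) / s = s + 2 * v / s := by
        have : 4 * v - 2 = s * s + 2 * v := by rw [hss]; ring
        rw [this]
        field_simp
      rw [e5]
      field_simp
      ring
    rw [← e2]
    ext i j
    simp only [Matrix.add_apply, Matrix.smul_apply, smul_eq_mul]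
    have e7 : ((2 * v - 2) * a) * (1 : Matrix ι ι ℝ) i j = s * (1 : Matrix ι ι ℝ) i j := by
      rw [mul_comm (2 * v - 2) a, e1]
    linear_combination e7
  have hUU : (W * M) * (W * M)ᵀ = 1 := by
    rw [Matrix.transpose_mul, hWT, ← Matrix.mul_assoc, Matrix.mul_assoc W M Mᵀ, hWG, hW]
    rw [Matrix.add_mul, Matrix.mul_add, Matrix.mul_add]
    simp only [Matrix.smul_mul, Matrix.mul_smul, Matrix.one_mul, Matrix.mul_one, smul_smul, hNN]
    have e1 : s * a = 1 := by rw [ha]; field_simp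
    have e2 : s * b + ((t - s) / v * a + (t - s) / v * b * v) = 0 := by
      have e3 : (t - s) / v * b * v = (t - s) / v * (1 / t - 1 / s) := by rw [mul_assoc, hbv]
      rw [e3, hb, ha]
      field_simp
      ring
    ext i j
    simp only [Matrix.add_apply, Matrix.smul_apply, smul_eq_mul]
    linear_combination ((1 : Matrix ι ι ℝ) i j) * e1 + (N i j) * e2
  refine ⟨W * M, hUU, ?_⟩
  have h1 : ∑ i, ∑ j, M i j * (W * M) i j = Matrix.trace (W * (M * Mᵀ)) := by
    rw [← Matrix.mul_assoc, Matrix.trace]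
    refine Finset.sum_congr rfl fun i _ => ?_
    rw [Matrix.diag_apply, Matrix.mul_apply]
    refine Finset.sum_congr rfl fun j _ => ?_
    rw [Matrix.transpose_apply, mul_comm]
  rw [h1, hWG, Matrix.trace_add, Matrix.trace_smul, Matrix.trace_smul, Matrix.trace_one]
  have h2 : Matrix.trace N = 2 * v := by
    rw [← hcard, Matrix.trace]
    simp [hNd]
  rw [h2, hcard, smul_eq_mul, smul_eq_mul]
  field_simp
  ring

/-- The numerical estimate. -/
lemma EhA_num {v s t : ℝ} (hv : 2 ≤ v) (hs : 0 ≤ s) (hss : s * s = 2 * v - 2) (ht : 0 ≤ t)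
    (htt : t * t = 4 * v - 2) :
    2 * v - 1 / 2 < (((2 * v - 2) * s + 2 * t) / (2 * v)) ^ 2 := by
  have hst : 0 ≤ s * t := mul_nonneg hs ht
  have h1 : 1.414 * (2 * v - 1.6) ≤ s * t := by
    refine le_of_sq_le_sq ?_ hst
    have e : (s * t) ^ 2 = (2 * v - 2) * (4 * v - 2) := by
      rw [mul_pow, sq, sq, hss, htt]
    rw [e]
    nlinarith
  rw [div_pow, lt_div_iff₀ (by positivity)]
  have e : ((2 * v - 2) * s + 2 * t) ^ 2 =
      (2 * v - 2) ^ 2 * (2 * v - 2) + 4 * (2 * v - 2) * (s * t) + 4 * (4 * v - 2) := by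
    rw [← hss, ← htt]; ring
  rw [e]
  nlinarith [mul_le_mul_of_nonneg_left h1 (show (0 : ℝ) ≤ 2 * v - 2 by linarith)]

/-- The two-by-two Hadamard matrix. -/
def hTwo : Matrix Bool Bool ℝ := Matrix.of fun a b => if a && b then -1 else 1

lemma hTwo_mul : hTwo * hTwoᵀ = (2 : ℝ) • (1 : Matrix Bool Bool ℝ) := by
  ext a b
  cases a <;> cases b <;> norm_num [hTwo, Matrix.mul_apply, Matrix.transpose_apply]

/-- Twice the order. -/
lemma EhA_two {ι : Type} [Fintype ι] [DecidableEq ι] {n : ℕ} (hn : 0 < n)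
    (hc : Fintype.card ι = n) {M U : Matrix ι ι ℝ} (hM : SignOn M) (hU : U * Uᵀ = 1) :
    2 * ((∑ i, ∑ j, M i j * U i j) / n) ^ 2 ≤ rMax (2 * n) ^ 2 := by
  have h2 : Real.sqrt 2 * Real.sqrt 2 = 2 := Real.mul_self_sqrt (by norm_num)
  have h20 : Real.sqrt 2 ≠ 0 := (Real.sqrt_pos.mpr (by norm_num)).ne'
  have hnR : (n : ℝ) ≠ 0 := by exact_mod_cast hn.ne'
  have h := EhA_gen (ι := ι × Bool) (n := 2 * n) (by omega)
    (by rw [Fintype.card_prod, hc, Fintype.card_bool, mul_comm])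
    (M := M ⊗ₖ hTwo)
    (U := U ⊗ₖ ((1 / Real.sqrt 2) • hTwo))
    (by
      rintro ⟨i, a⟩ ⟨j, b⟩
      rcases hM i j with h | h <;> cases a <;> cases b <;> simp [hTwo, h])
    (by
      rw [← Matrix.kroneckerMap_transpose, ← Matrix.mul_kronecker_mul, hU, Matrix.transpose_smul,
        Matrix.smul_mul, Matrix.mul_smul, hTwo_mul, smul_smul, smul_smul]
      have : 1 / Real.sqrt 2 * (1 / Real.sqrt 2) * 2 = 1 := by
        field_simp
        rw [sq, h2]
      rw [this, one_smul]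
      simp)
  refine le_trans (le_of_eq ?_) h
  have e : ∑ i, ∑ j, (M ⊗ₖ hTwo) i j * (U ⊗ₖ ((1 / Real.sqrt 2) • hTwo)) i j =
      (∑ i, ∑ j, M i j * U i j) * (4 / Real.sqrt 2) := by
    simp only [Fintype.sum_prod_type, Matrix.kroneckerMap_apply, Fintype.sum_bool,
      Matrix.smul_apply, smul_eq_mul, hTwo, Matrix.of_apply, Finset.sum_mul]
    refine Finset.sum_congr rfl fun i _ => ?_
    rw [← Finset.sum_add_distrib]
    refine Finset.sum_congr rfl fun j _ => ?_
    simp
    ring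
  rw [e]
  push_cast
  rw [div_pow, div_pow, mul_pow, mul_pow, div_pow, sq (Real.sqrt 2), h2]
  field_simp
  ring

end Pool.Agent.H.MP_abf7f7_an
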