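import Pool.Agent.H.MP_abf7f7_an.EhA
import Pool.Agent.H.MP_abf7f7_an.Pl.Singer

/-!
# EhB: the orders `2 v` and `4 v` of Ehlich-Wojtas matrices
-/

set_option autoImplicit false

namespace Pool.Agent.H.MP_abf7f7_an

open Matrix

/-- An Ehlich-Wojtas matrix of order `2 v`: a sign matrix `M` of order `2 v`, rows and columns in two
halves of size `v`, with `M Mᵀ = (2 v - 2) I + 2 (J ⊕ J)`, that is, two different rows have the inner
product `2` if they are in the same half and `0` otherwise. -/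
def EhlichMat {v : ℕ} (M : Matrix (Fin v ⊕ Fin v) (Fin v ⊕ Fin v) ℝ) : Prop :=
  (∀ i j, M i j = 1 ∨ M i j = -1) ∧
    M * Mᵀ = (2 * (v : ℝ) - 2) • (1 : Matrix (Fin v ⊕ Fin v) (Fin v ⊕ Fin v) ℝ) +
      (2 : ℝ) • Matrix.fromBlocks (Matrix.of fun _ _ => 1) 0 0 (Matrix.of fun _ _ => 1)

theorem rMax_of_ehlich {v : ℕ} (hv : 2 ≤ v) {M : Matrix (Fin v ⊕ Fin v) (Fin v ⊕ Fin v) ℝ}
    (hM : EhlichMat M) :
    ((2 * v : ℕ) : ℝ) - 1 / 2 < rMax (2 * v) ^ 2 ∧ ((4 * v : ℕ) : ℝ) - 1 < rMax (4 * v) ^ 2 := by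
  have hvR : (2 : ℝ) ≤ v := by exact_mod_cast hv
  set N : Matrix (Fin v ⊕ Fin v) (Fin v ⊕ Fin v) ℝ :=
    Matrix.fromBlocks (Matrix.of fun _ _ => 1) 0 0 (Matrix.of fun _ _ => 1) with hN
  have hNT : Nᵀ = N := by
    rw [hN, Matrix.fromBlocks_transpose]
    rfl
  have hJ : (Matrix.of fun _ _ => 1 : Matrix (Fin v) (Fin v) ℝ) * (Matrix.of fun _ _ => 1) =
      (v : ℝ) • (Matrix.of fun _ _ => 1) := by
    ext i j
    simp [Matrix.mul_apply]
  have hNN : N * N = (v : ℝ) • N := by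
    rw [hN, Matrix.fromBlocks_multiply, Matrix.fromBlocks_smul]
    simp only [Matrix.mul_zero, Matrix.zero_mul, add_zero, zero_add, smul_zero, hJ]
  have hNd : ∀ i, N i i = 1 := by
    rintro (i | i) <;> rfl
  have hc : Fintype.card (Fin v ⊕ Fin v) = 2 * v := by
    rw [Fintype.card_sum, Fintype.card_fin]; ring
  obtain ⟨U, hU, hS⟩ := EhA_polar (v := (v : ℝ)) (by linarith) hNT hNN hNd
    (by rw [hc]; push_cast; ring) hM.2
  have h1 := EhA_gen (n := 2 * v) (by omega) hc hM.1 hU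
  have h2 := EhA_two (n := 2 * v) (by omega) hc hM.1 hU
  rw [hS] at h1 h2
  have h3 := EhA_num hvR (Real.sqrt_nonneg (2 * (v : ℝ) - 2)) (Real.mul_self_sqrt (by linarith))
    (Real.sqrt_nonneg (4 * (v : ℝ) - 2)) (Real.mul_self_sqrt (by linarith))
  push_cast at h1 h2 ⊢
  have e : 2 * (2 * v) = 4 * v := by ring
  rw [e] at h2
  constructor
  · linarith
  · linarith

theorem exists_ehlich {q : ℕ} (hq : IsPrimePow q) :
    ∃ M : Matrix (Fin (q ^ 2 + q + 1) ⊕ Fin (q ^ 2 + q + 1))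
      (Fin (q ^ 2 + q + 1) ⊕ Fin (q ^ 2 + q + 1)) ℝ, EhlichMat M := by
  obtain ⟨G, hG1, hG2, M, hc, hs, hM⟩ := planar_ew q hq
  let e : G ≃ Fin (q ^ 2 + q + 1) := Fintype.equivFinOfCardEq hc
  let f : Fin (q ^ 2 + q + 1) ⊕ Fin (q ^ 2 + q + 1) ≃ G ⊕ G := Equiv.sumCongr e.symm e.symm
  refine ⟨M.submatrix f f, fun i j => hs _ _, ?_⟩
  rw [Matrix.transpose_submatrix, Matrix.submatrix_mul_equiv, hM]
  ext i j
  rw [Matrix.submatrix_apply, Matrix.add_apply, Matrix.add_apply, Matrix.smul_apply,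
    Matrix.smul_apply, Matrix.smul_apply, Matrix.smul_apply]
  have h1 : (1 : Matrix (G ⊕ G) (G ⊕ G) ℝ) (f i) (f j) =
      (1 : Matrix (Fin (q ^ 2 + q + 1) ⊕ Fin (q ^ 2 + q + 1)) _ ℝ) i j := by
    rw [Matrix.one_apply, Matrix.one_apply]
    simp only [f.apply_eq_iff_eq]
  rw [h1]
  rcases i with i | i <;> rcases j with j | j <;> push_cast <;> rfl

end Pool.Agent.H.MP_abf7f7_an
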