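import Pool.Agent.H.MP_abf7f7_an.Constr

/-!
Hadamard matrices of order `m` together with two pairs of orthogonal sign vectors which span planes that
correspond to each other.
-/

set_option autoImplicit false

namespace Pool.Agent.H.MP_abf7f7_an

open Matrix

/-- There is a Hadamard matrix `H` of order `m` and there are `m × 2` sign matrices `B` and `C` with orthogonal
columns such that `H C = B P` for a real `2 × 2` matrix `P`. -/
def Pair (m : ℕ) : Prop :=
  ∃ (H : Matrix (Fin m) (Fin m) ℝ) (B C : Matrix (Fin m) (Fin 2) ℝ) (P : Matrix (Fin 2) (Fin 2) ℝ),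
    HadamardMat H ∧ IsSign B ∧ IsSign C ∧ Bᵀ * B = (m : ℝ) • (1 : Matrix (Fin 2) (Fin 2) ℝ) ∧
      Cᵀ * C = (m : ℝ) • (1 : Matrix (Fin 2) (Fin 2) ℝ) ∧ H * C = B * P

/-- The same for an arbitrary index type, with sums in place of products of matrices. -/
lemma Fam_pair {ι : Type} [Fintype ι] [DecidableEq ι] {m : ℕ} (hm : Fintype.card ι = m)
    (H : ι → ι → ℝ) (B C : ι → Fin 2 → ℝ) (P : Fin 2 → Fin 2 → ℝ)
    (hH : ∀ i j, H i j = 1 ∨ H i j = -1) (hB : ∀ i j, B i j = 1 ∨ B i j = -1)
    (hC : ∀ i j, C i j = 1 ∨ C i j = -1)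
    (h1 : ∀ i j, ∑ k, H i k * H j k = if i = j then (m : ℝ) else 0)
    (h2 : ∀ i j, ∑ k, B k i * B k j = if i = j then (m : ℝ) else 0)
    (h3 : ∀ i j, ∑ k, C k i * C k j = if i = j then (m : ℝ) else 0)
    (h4 : ∀ i j, ∑ k, H i k * C k j = ∑ l, B i l * P l j) : Pair m := by
  subst hm
  obtain ⟨e⟩ : Nonempty (Fin (Fintype.card ι) ≃ ι) := ⟨(Fintype.equivFin ι).symm⟩
  have hsum : ∀ f : ι → ℝ, ∑ k, f (e k) = ∑ k, f k := fun f => Equiv.sum_comp e f
  refine ⟨Matrix.of fun i j => H (e i) (e j), Matrix.of fun i j => B (e i) j,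
    Matrix.of fun i j => C (e i) j, Matrix.of P, ⟨fun i j => hH _ _, ?_⟩, fun i j => hB _ _,
    fun i j => hC _ _, ?_, ?_, ?_⟩
  · ext i j
    rw [Matrix.mul_apply, Matrix.smul_apply, Matrix.one_apply, smul_eq_mul]
    simp only [Matrix.transpose_apply, Matrix.of_apply]
    rw [hsum (fun k => H (e i) k * H (e j) k), h1]
    by_cases hij : i = j
    · simp [hij]
    · simp [hij]
  · ext i j
    rw [Matrix.mul_apply, Matrix.smul_apply, Matrix.one_apply, smul_eq_mul]
    simp only [Matrix.transpose_apply, Matrix.of_apply]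
    rw [hsum (fun k => B k i * B k j), h2]
    by_cases hij : i = j
    · simp [hij]
    · simp [hij]
  · ext i j
    rw [Matrix.mul_apply, Matrix.smul_apply, Matrix.one_apply, smul_eq_mul]
    simp only [Matrix.transpose_apply, Matrix.of_apply]
    rw [hsum (fun k => C k i * C k j), h3]
    by_cases hij : i = j
    · simp [hij]
    · simp [hij]
  · ext i j
    rw [Matrix.mul_apply, Matrix.mul_apply]
    simp only [Matrix.of_apply]
    rw [hsum (fun k => H (e i) k * C k j), h4]

lemma Fam_mul_sign {x y : ℝ} (hx : x = 1 ∨ x = -1) (hy : y = 1 ∨ y = -1) :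
    x * y = 1 ∨ x * y = -1 := by
  rcases hx with rfl | rfl <;> rcases hy with rfl | rfl <;> norm_num

lemma Fam_row {h : ℕ} {K : Matrix (Fin h) (Fin h) ℝ} (hK : HadamardMat K) (i j : Fin h) :
    ∑ k, K i k * K j k = if i = j then (h : ℝ) else 0 := by
  have h1 := congrFun (congrFun hK.2 i) j
  rw [Matrix.mul_apply, Matrix.smul_apply, Matrix.one_apply, smul_eq_mul] at h1
  simp only [Matrix.transpose_apply] at h1
  rw [h1]
  by_cases hij : i = j
  · simp [hij]
  · simp [hij]

lemma Fam_col {h : ℕ} (hh : 1 ≤ h) {K : Matrix (Fin h) (Fin h) ℝ} (hK : HadamardMat K)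
    (i j : Fin h) : ∑ k, K k i * K k j = if i = j then (h : ℝ) else 0 := by
  have h0 : (h : ℝ) ≠ 0 := by
    have : h ≠ 0 := by omega
    exact_mod_cast this
  have h1 := congrFun (congrFun (transpose_mul_self_of h0 hK.2) i) j
  rw [Matrix.mul_apply, Matrix.smul_apply, Matrix.one_apply, smul_eq_mul] at h1
  simp only [Matrix.transpose_apply] at h1
  rw [h1]
  by_cases hij : i = j
  · simp [hij]
  · simp [hij]

/-- The Kronecker square of a Hadamard matrix. -/
lemma Fam_kron {h : ℕ} {K : Matrix (Fin h) (Fin h) ℝ} (hK : HadamardMat K) (i j : Fin h × Fin h) :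
    ∑ k : Fin h × Fin h, (K i.1 k.1 * K i.2 k.2) * (K j.1 k.1 * K j.2 k.2) =
      if i = j then ((h : ℝ) * h) else 0 := by
  rw [Fintype.sum_prod_type]
  have h1 : ∀ x : Fin h, ∑ y : Fin h, (K i.1 x * K i.2 y) * (K j.1 x * K j.2 y) =
      (K i.1 x * K j.1 x) * (if i.2 = j.2 then (h : ℝ) else 0) := by
    intro x
    rw [← Fam_row hK, Finset.mul_sum]
    exact Finset.sum_congr rfl fun y _ => by ring
  simp only [h1]
  rw [← Finset.sum_mul, Fam_row hK]
  by_cases ha : i.1 = j.1
  · by_cases hb : i.2 = j.2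
    · rw [if_pos ha, if_pos hb, if_pos (Prod.ext ha hb)]
    · rw [if_neg hb, if_neg fun hc => hb (congrArg Prod.snd hc), mul_zero]
  · rw [if_neg ha, if_neg fun hc => ha (congrArg Prod.fst hc), zero_mul]

/-- `(K ⊗ K) vec(d K) = h vec(K d)`. -/
lemma Fam_vec {h : ℕ} {K : Matrix (Fin h) (Fin h) ℝ} (hK : HadamardMat K) (d : Fin h → ℝ)
    (i : Fin h × Fin h) :
    ∑ k : Fin h × Fin h, (K i.1 k.1 * K i.2 k.2) * (d k.1 * K k.1 k.2) =
      h * (d i.2 * K i.1 i.2) := by
  rw [Fintype.sum_prod_type]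
  have h1 : ∀ x : Fin h, ∑ y : Fin h, (K i.1 x * K i.2 y) * (d x * K x y) =
      (K i.1 x * d x) * (if i.2 = x then (h : ℝ) else 0) := by
    intro x
    rw [← Fam_row hK, Finset.mul_sum]
    exact Finset.sum_congr rfl fun y _ => by ring
  simp only [h1, mul_ite, mul_zero, Finset.sum_ite_eq, Finset.mem_univ, if_true]
  ring

lemma Fam_all {h : ℕ} {K : Matrix (Fin h) (Fin h) ℝ} (hK : HadamardMat K) (d : Fin h → ℝ) :
    ∑ k : Fin h × Fin h, d k.1 * (K k.1 k.2 * K k.1 k.2) = h * ∑ x, d x := by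
  rw [Fintype.sum_prod_type, Finset.mul_sum]
  refine Finset.sum_congr rfl fun x _ => ?_
  change ∑ y, d x * (K x y * K x y) = h * d x
  rw [← Finset.mul_sum, Fam_row hK, if_pos rfl, mul_comm]

lemma Fam_all' {h : ℕ} (hh : 1 ≤ h) {K : Matrix (Fin h) (Fin h) ℝ} (hK : HadamardMat K)
    (d : Fin h → ℝ) :
    ∑ k : Fin h × Fin h, d k.2 * (K k.1 k.2 * K k.1 k.2) = h * ∑ x, d x := by
  rw [Fintype.sum_prod_type_right, Finset.mul_sum]
  refine Finset.sum_congr rfl fun x _ => ?_
  change ∑ y, d x * (K y x * K y x) = h * d x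
  rw [← Finset.mul_sum, Fam_col hh hK, if_pos rfl, mul_comm]

/-- Order `h ^ 2`. -/
theorem pair_sq {h : ℕ} (hh : 2 ≤ h) {K : Matrix (Fin h) (Fin h) ℝ} (hK : HadamardMat K) :
    Pair (h * h) := by
  obtain ⟨z, hz⟩ : ∃ z : Fin h, z = ⟨0, by omega⟩ := ⟨_, rfl⟩
  obtain ⟨o, ho⟩ : ∃ o : Fin h, o = ⟨1, by omega⟩ := ⟨_, rfl⟩
  have hzo : z ≠ o := by
    rw [hz, ho]
    intro h0
    exact zero_ne_one (Fin.mk.inj_iff.1 h0)
  obtain ⟨d, hd⟩ : ∃ d : Fin h → ℝ, d = fun k => K k z * K k o := ⟨_, rfl⟩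
  have hd1 : ∀ k, d k = 1 ∨ d k = -1 := by
    intro k
    rw [hd]
    exact Fam_mul_sign (hK.1 _ _) (hK.1 _ _)
  have hd2 : ∀ k, d k * d k = 1 := by
    intro k
    rcases hd1 k with h0 | h0 <;> rw [h0] <;> norm_num
  have hd3 : ∑ k, d k = 0 := by
    rw [hd]
    exact (Fam_col (by omega) hK z o).trans (if_neg hzo)
  have hKK : ∀ i j, K i j * K i j = 1 := fun i j => sign_sq hK.1 i j
  refine Fam_pair (ι := Fin h × Fin h) (by simp) (fun i k => K i.1 k.1 * K i.2 k.2)
    (fun i l => (if l = 0 then 1 else d i.2) * K i.1 i.2)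
    (fun i l => (if l = 0 then 1 else d i.1) * K i.1 i.2)
    (fun l l' => if l = l' then (h : ℝ) else 0)
    (fun i j => Fam_mul_sign (hK.1 _ _) (hK.1 _ _)) ?_ ?_ ?_ ?_ ?_ ?_
  · intro i l
    refine Fam_mul_sign ?_ (hK.1 _ _)
    by_cases hl : l = 0
    · simp [hl]
    · rw [if_neg hl]
      exact hd1 _
  · intro i l
    refine Fam_mul_sign ?_ (hK.1 _ _)
    by_cases hl : l = 0
    · simp [hl]
    · rw [if_neg hl]
      exact hd1 _
  · intro i j
    rw [Fam_kron hK]
    push_cast
    rfl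
  · intro l l'
    have e0 : ∀ k : Fin h × Fin h, ((if l = 0 then 1 else d k.2) * K k.1 k.2) *
        ((if l' = 0 then 1 else d k.2) * K k.1 k.2) =
        ((if l = 0 then 1 else d k.2) * (if l' = 0 then 1 else d k.2)) *
          (K k.1 k.2 * K k.1 k.2) := fun k => by ring
    simp only [e0]
    rw [Fam_all' (by omega) hK (fun x => (if l = 0 then 1 else d x) * (if l' = 0 then 1 else d x))]
    push_cast
    fin_cases l <;> fin_cases l' <;> simp [hd3, hd2]
  · intro l l'
    have e0 : ∀ k : Fin h × Fin h, ((if l = 0 then 1 else d k.1) * K k.1 k.2) *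
        ((if l' = 0 then 1 else d k.1) * K k.1 k.2) =
        ((if l = 0 then 1 else d k.1) * (if l' = 0 then 1 else d k.1)) *
          (K k.1 k.2 * K k.1 k.2) := fun k => by ring
    simp only [e0]
    rw [Fam_all hK (fun x => (if l = 0 then 1 else d x) * (if l' = 0 then 1 else d x))]
    push_cast
    fin_cases l <;> fin_cases l' <;> simp [hd3, hd2]
  · intro i l
    rw [Fam_vec hK (fun x => if l = 0 then 1 else d x)]
    simp only [mul_ite, mul_zero, Finset.sum_ite_eq', Finset.mem_univ, if_true]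
    ring

/-- The product with the Kronecker square of a Hadamard matrix. -/
theorem pair_mul {m h : ℕ} (hp : Pair m) (hh : 1 ≤ h) {K : Matrix (Fin h) (Fin h) ℝ}
    (hK : HadamardMat K) : Pair (m * (h * h)) := by
  obtain ⟨H, B, C, P, hH, hB, hC, hBB, hCC, hP⟩ := hp
  have hrow := Fam_row hH
  have hBB' : ∀ i j, ∑ k, B k i * B k j = if i = j then (m : ℝ) else 0 := by
    intro i j
    have h1 := congrFun (congrFun hBB i) j
    rw [Matrix.mul_apply, Matrix.smul_apply, Matrix.one_apply, smul_eq_mul] at h1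
    simp only [Matrix.transpose_apply] at h1
    rw [h1]
    by_cases hij : i = j
    · simp [hij]
    · simp [hij]
  have hCC' : ∀ i j, ∑ k, C k i * C k j = if i = j then (m : ℝ) else 0 := by
    intro i j
    have h1 := congrFun (congrFun hCC i) j
    rw [Matrix.mul_apply, Matrix.smul_apply, Matrix.one_apply, smul_eq_mul] at h1
    simp only [Matrix.transpose_apply] at h1
    rw [h1]
    by_cases hij : i = j
    · simp [hij]
    · simp [hij]
  have hP' : ∀ i j, ∑ k, H i k * C k j = ∑ l, B i l * P l j := by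
    intro i j
    have h1 := congrFun (congrFun hP i) j
    rwa [Matrix.mul_apply, Matrix.mul_apply] at h1
  have hKK : ∀ i j, K i j * K i j = 1 := fun i j => sign_sq hK.1 i j
  have hone : ∑ k : Fin h × Fin h, K k.1 k.2 * K k.1 k.2 = (h : ℝ) * h := by
    have h1 := Fam_all hK (fun _ => 1)
    simpa using h1
  refine Fam_pair (ι := Fin m × (Fin h × Fin h)) (by simp)
    (fun i k => H i.1 k.1 * (K i.2.1 k.2.1 * K i.2.2 k.2.2))
    (fun i l => B i.1 l * K i.2.1 i.2.2) (fun i l => C i.1 l * K i.2.1 i.2.2)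
    (fun l l' => h * P l l')
    (fun i j => Fam_mul_sign (hH.1 _ _) (Fam_mul_sign (hK.1 _ _) (hK.1 _ _)))
    (fun i j => Fam_mul_sign (hB _ _) (hK.1 _ _)) (fun i j => Fam_mul_sign (hC _ _) (hK.1 _ _))
    ?_ ?_ ?_ ?_
  · intro i j
    rw [Fintype.sum_prod_type]
    have h1 : ∀ x : Fin m, ∑ y : Fin h × Fin h, (H i.1 x * (K i.2.1 y.1 * K i.2.2 y.2)) *
        (H j.1 x * (K j.2.1 y.1 * K j.2.2 y.2)) =
        (H i.1 x * H j.1 x) * (if i.2 = j.2 then ((h : ℝ) * h) else 0) := by
      intro x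
      rw [← Fam_kron hK, Finset.mul_sum]
      exact Finset.sum_congr rfl fun y _ => by ring
    simp only [h1]
    rw [← Finset.sum_mul, hrow]
    push_cast
    by_cases ha : i.1 = j.1
    · by_cases hb : i.2 = j.2
      · rw [if_pos ha, if_pos hb, if_pos (Prod.ext ha hb)]
      · rw [if_neg hb, if_neg fun hc => hb (congrArg Prod.snd hc), mul_zero]
    · rw [if_neg ha, if_neg fun hc => ha (congrArg Prod.fst hc), zero_mul]
  · intro l l'
    rw [Fintype.sum_prod_type]
    have h1 : ∀ x : Fin m, ∑ y : Fin h × Fin h, (B x l * K y.1 y.2) * (B x l' * K y.1 y.2) =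
        (B x l * B x l') * ((h : ℝ) * h) := by
      intro x
      rw [← hone, Finset.mul_sum]
      exact Finset.sum_congr rfl fun y _ => by ring
    simp only [h1]
    rw [← Finset.sum_mul, hBB']
    push_cast
    by_cases hl : l = l'
    · rw [if_pos hl, if_pos hl]
    · rw [if_neg hl, if_neg hl, zero_mul]
  · intro l l'
    rw [Fintype.sum_prod_type]
    have h1 : ∀ x : Fin m, ∑ y : Fin h × Fin h, (C x l * K y.1 y.2) * (C x l' * K y.1 y.2) =
        (C x l * C x l') * ((h : ℝ) * h) := by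
      intro x
      rw [← hone, Finset.mul_sum]
      exact Finset.sum_congr rfl fun y _ => by ring
    simp only [h1]
    rw [← Finset.sum_mul, hCC']
    push_cast
    by_cases hl : l = l'
    · rw [if_pos hl, if_pos hl]
    · rw [if_neg hl, if_neg hl, zero_mul]
  · intro i l
    rw [Fintype.sum_prod_type]
    have h1 : ∀ x : Fin m, ∑ y : Fin h × Fin h, (H i.1 x * (K i.2.1 y.1 * K i.2.2 y.2)) *
        (C x l * K y.1 y.2) = (H i.1 x * C x l) * (h * K i.2.1 i.2.2) := by
      intro x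
      have h2 := Fam_vec hK (fun _ => 1) i.2
      simp only [one_mul] at h2
      rw [← h2, Finset.mul_sum]
      exact Finset.sum_congr rfl fun y _ => by ring
    simp only [h1]
    rw [← Finset.sum_mul, hP', Finset.sum_mul]
    exact Finset.sum_congr rfl fun x _ => by ring

/-- The entries of the matrix with two circulant blocks. -/
def Fam_two {v : ℕ} (a b : ZMod v → ℝ) : ZMod v ⊕ ZMod v → ZMod v ⊕ ZMod v → ℝ
  | .inl i, .inl j => a (j - i)
  | .inl i, .inr j => b (j - i)
  | .inr i, .inl j => -b (i - j)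
  | .inr i, .inr j => a (i - j)

/-- The two sign vectors. -/
def Fam_eps {v : ℕ} : ZMod v ⊕ ZMod v → Fin 2 → ℝ
  | .inl _, _ => 1
  | .inr _, l => if l = 0 then 1 else -1

/-- Order `2 v`, from a periodic Golay pair of length `v`. -/
theorem pair_golay {v : ℕ} [NeZero v] (a b : ZMod v → ℝ) (ha : ∀ x, a x = 1 ∨ a x = -1)
    (hb : ∀ x, b x = 1 ∨ b x = -1)
    (hab : ∀ s : ZMod v, s ≠ 0 → ∑ x, (a x * a (x + s) + b x * b (x + s)) = 0) :
    Pair (2 * v) := by
  have haa : ∀ x, a x * a x = 1 := fun x => by rcases ha x with h | h <;> rw [h] <;> norm_num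
  have hbb : ∀ x, b x * b x = 1 := fun x => by rcases hb x with h | h <;> rw [h] <;> norm_num
  have hR : ∀ s : ZMod v, ∑ x, a x * a (x + s) + ∑ x, b x * b (x + s) =
      if s = 0 then (2 * v : ℝ) else 0 := by
    intro s
    rw [← Finset.sum_add_distrib]
    by_cases hs : s = 0
    · rw [if_pos hs, hs]
      simp only [add_zero, haa, hbb, Finset.sum_const, Finset.card_univ, ZMod.card, nsmul_eq_mul]
      ring
    · rw [if_neg hs]
      exact hab s hs
  have hsub : ∀ (f : ZMod v → ℝ) (i : ZMod v), ∑ k, f (k - i) = ∑ k, f k := fun f i =>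
    (Equiv.subRight i).sum_comp f
  have hsub' : ∀ (f : ZMod v → ℝ) (i : ZMod v), ∑ k, f (i - k) = ∑ k, f k := fun f i =>
    (Equiv.subLeft i).sum_comp f
  have h1 : ∀ (f : ZMod v → ℝ) (i j : ZMod v), ∑ k, f (k - i) * f (k - j) =
      ∑ x, f x * f (x + (i - j)) := by
    intro f i j
    rw [← hsub (fun x => f x * f (x + (i - j))) i]
    refine Finset.sum_congr rfl fun k _ => ?_
    rw [sub_add_sub_cancel]
  have h2 : ∀ (f : ZMod v → ℝ) (i j : ZMod v), ∑ k, f (i - k) * f (j - k) =
      ∑ x, f x * f (x + (j - i)) := by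
    intro f i j
    rw [← hsub' (fun x => f x * f (x + (j - i))) i]
    refine Finset.sum_congr rfl fun k _ => ?_
    have e : i - k + (j - i) = j - k := by ring
    rw [e]
  have h3 : ∀ (f g : ZMod v → ℝ) (i j : ZMod v), ∑ k, f (k - i) * g (j - k) =
      ∑ k, g (k - i) * f (j - k) := by
    intro f g i j
    rw [← hsub' (fun k => f (k - i) * g (j - k)) (i + j)]
    refine Finset.sum_congr rfl fun k _ => ?_
    have e1 : i + j - k - i = j - k := by ring
    have e2 : j - (i + j - k) = k - i := by ring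
    rw [e1, e2, mul_comm]
  refine Fam_pair (ι := ZMod v ⊕ ZMod v) (by simp [ZMod.card, two_mul]) (Fam_two a b) Fam_eps
    Fam_eps (fun l l' => if l = 0 then (if l' = 0 then ∑ x, a x else -∑ x, b x) else
      (if l' = 0 then ∑ x, b x else ∑ x, a x)) ?_ ?_ ?_ ?_ ?_ ?_ ?_
  · rintro (i | i) (j | j)
    · exact ha _
    · exact hb _
    · show -b (i - j) = 1 ∨ -b (i - j) = -1
      rcases hb (i - j) with h | h <;> rw [h] <;> norm_num
    · exact ha _
  · rintro (i | i) l
    · exact Or.inl rfl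
    · show (if l = 0 then (1 : ℝ) else -1) = 1 ∨ (if l = 0 then (1 : ℝ) else -1) = -1
      by_cases hl : l = 0
      · rw [if_pos hl]
        exact Or.inl rfl
      · rw [if_neg hl]
        exact Or.inr rfl
  · rintro (i | i) l
    · exact Or.inl rfl
    · show (if l = 0 then (1 : ℝ) else -1) = 1 ∨ (if l = 0 then (1 : ℝ) else -1) = -1
      by_cases hl : l = 0
      · rw [if_pos hl]
        exact Or.inl rfl
      · rw [if_neg hl]
        exact Or.inr rfl
  · intro i j
    rw [Fintype.sum_sum_type]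
    push_cast
    rcases i with i | i <;> rcases j with j | j
    · show ∑ k, a (k - i) * a (k - j) + ∑ k, b (k - i) * b (k - j) = _
      rw [h1 a, h1 b, hR]
      by_cases hij : i = j
      · rw [if_pos (sub_eq_zero.2 hij), if_pos (congrArg Sum.inl hij)]
      · rw [if_neg fun h => hij (sub_eq_zero.1 h), if_neg fun h => hij (Sum.inl_injective h)]
    · show ∑ k, a (k - i) * -b (j - k) + ∑ k, b (k - i) * a (j - k) = _
      rw [← h3 a b i j, if_neg Sum.inl_ne_inr, ← Finset.sum_add_distrib]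
      exact Finset.sum_eq_zero fun k _ => by ring
    · show ∑ k, -b (i - k) * a (k - j) + ∑ k, a (i - k) * b (k - j) = _
      have e1 : ∑ k, a (i - k) * b (k - j) = ∑ k, b (i - k) * a (k - j) := by
        have e2 := h3 b a j i
        calc ∑ k, a (i - k) * b (k - j) = ∑ k, b (k - j) * a (i - k) :=
              Finset.sum_congr rfl fun k _ => mul_comm _ _
          _ = ∑ k, a (k - j) * b (i - k) := e2
          _ = ∑ k, b (i - k) * a (k - j) := Finset.sum_congr rfl fun k _ => mul_comm _ _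
      rw [e1, if_neg Sum.inr_ne_inl, ← Finset.sum_add_distrib]
      exact Finset.sum_eq_zero fun k _ => by ring
    · show ∑ k, -b (i - k) * -b (j - k) + ∑ k, a (i - k) * a (j - k) = _
      have e1 : ∑ k, -b (i - k) * -b (j - k) = ∑ k, b (i - k) * b (j - k) :=
        Finset.sum_congr rfl fun k _ => by ring
      rw [e1, h2 a, h2 b, add_comm, hR]
      by_cases hij : i = j
      · rw [if_pos (sub_eq_zero.2 hij.symm), if_pos (congrArg Sum.inr hij)]
      · rw [if_neg fun h => hij (sub_eq_zero.1 h).symm, if_neg fun h => hij (Sum.inr_injective h)]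
  · intro l l'
    rw [Fintype.sum_sum_type]
    push_cast
    show ∑ _k : ZMod v, (1 : ℝ) * 1 + ∑ _k : ZMod v, (if l = 0 then (1 : ℝ) else -1) *
      (if l' = 0 then (1 : ℝ) else -1) = _
    simp only [Finset.sum_const, Finset.card_univ, ZMod.card, nsmul_eq_mul]
    fin_cases l <;> fin_cases l' <;> simp <;> ring
  · intro l l'
    rw [Fintype.sum_sum_type]
    push_cast
    show ∑ _k : ZMod v, (1 : ℝ) * 1 + ∑ _k : ZMod v, (if l = 0 then (1 : ℝ) else -1) *
      (if l' = 0 then (1 : ℝ) else -1) = _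
    simp only [Finset.sum_const, Finset.card_univ, ZMod.card, nsmul_eq_mul]
    fin_cases l <;> fin_cases l' <;> simp <;> ring
  · intro i l
    rw [Fintype.sum_sum_type, Fin.sum_univ_two]
    rcases i with i | i
    · show ∑ k, a (k - i) * 1 + ∑ k, b (k - i) * (if l = 0 then (1 : ℝ) else -1) = _
      rw [← Finset.sum_mul, ← Finset.sum_mul, hsub a, hsub b]
      show _ = 1 * _ + 1 * _
      fin_cases l <;> simp <;> ring
    · show ∑ k, -b (i - k) * 1 + ∑ k, a (i - k) * (if l = 0 then (1 : ℝ) else -1) = _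
      rw [← Finset.sum_mul, ← Finset.sum_mul, Finset.sum_neg_distrib, hsub' a, hsub' b]
      show _ = (if (0 : Fin 2) = 0 then (1 : ℝ) else -1) * _ +
        (if (1 : Fin 2) = 0 then (1 : ℝ) else -1) * _
      fin_cases l <;> simp <;> ring

end Pool.Agent.H.MP_abf7f7_an
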