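import Pool.Agent.H.MP_abf7f7_an.Fam

/-!
Products with Hadamard matrices with constant row sums.
-/

set_option autoImplicit false

namespace Pool.Agent.H.MP_abf7f7_an

open Matrix

/-- The product with a Hadamard matrix with constant row sums. -/
theorem pair_reg {m r : ℕ} (hp : Pair m) {R : Matrix (Fin r) (Fin r) ℝ} (hR : HadamardMat R)
    {p : ℝ} (hrow : ∀ i, ∑ j, R i j = p) : Pair (m * r) := by
  obtain ⟨H, B, C, P, hH, hB, hC, hBB, hCC, hP⟩ := hp
  have hBB' : ∀ i j, ∑ k, B k i * B k j = if i = j then (m : ℝ) else 0 := by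
    intro i j
    have h1 := congrFun (congrFun hBB i) j
    rw [Matrix.mul_apply, Matrix.smul_apply, Matrix.one_apply, smul_eq_mul] at h1
    simp only [Matrix.transpose_apply] at h1
    rw [h1]
    by_cases hij : i = j
    · simp [hij]
    · simp [hij]
  have hCC' : ∀ i j, ∑ k, C k i * C k j = if i = j then (m : ℝ) else 0 := by
    intro i j
    have h1 := congrFun (congrFun hCC i) j
    rw [Matrix.mul_apply, Matrix.smul_apply, Matrix.one_apply, smul_eq_mul] at h1
    simp only [Matrix.transpose_apply] at h1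
    rw [h1]
    by_cases hij : i = j
    · simp [hij]
    · simp [hij]
  have hP' : ∀ i j, ∑ k, H i k * C k j = ∑ l, B i l * P l j := by
    intro i j
    have h1 := congrFun (congrFun hP i) j
    rwa [Matrix.mul_apply, Matrix.mul_apply] at h1
  refine Fam_pair (ι := Fin m × Fin r) (by simp) (fun i k => H i.1 k.1 * R i.2 k.2)
    (fun i l => B i.1 l) (fun i l => C i.1 l) (fun l l' => p * P l l')
    (fun i j => Fam_mul_sign (hH.1 _ _) (hR.1 _ _)) (fun i j => hB _ _) (fun i j => hC _ _)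
    ?_ ?_ ?_ ?_
  · intro i j
    rw [Fintype.sum_prod_type]
    have h1 : ∀ x : Fin m, ∑ y : Fin r, (H i.1 x * R i.2 y) * (H j.1 x * R j.2 y) =
        (H i.1 x * H j.1 x) * (if i.2 = j.2 then (r : ℝ) else 0) := by
      intro x
      rw [← Fam_row hR, Finset.mul_sum]
      exact Finset.sum_congr rfl fun y _ => by ring
    simp only [h1]
    rw [← Finset.sum_mul, Fam_row hH]
    push_cast
    by_cases ha : i.1 = j.1
    · by_cases hb : i.2 = j.2
      · rw [if_pos ha, if_pos hb, if_pos (Prod.ext ha hb)]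
      · rw [if_neg hb, if_neg fun hc => hb (congrArg Prod.snd hc), mul_zero]
    · rw [if_neg ha, if_neg fun hc => ha (congrArg Prod.fst hc), zero_mul]
  · intro l l'
    rw [Fintype.sum_prod_type]
    simp only [Finset.sum_const, Finset.card_univ, Fintype.card_fin, nsmul_eq_mul]
    rw [← Finset.mul_sum, hBB']
    push_cast
    by_cases hl : l = l'
    · rw [if_pos hl, if_pos hl, mul_comm]
    · rw [if_neg hl, if_neg hl, mul_zero]
  · intro l l'
    rw [Fintype.sum_prod_type]
    simp only [Finset.sum_const, Finset.card_univ, Fintype.card_fin, nsmul_eq_mul]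
    rw [← Finset.mul_sum, hCC']
    push_cast
    by_cases hl : l = l'
    · rw [if_pos hl, if_pos hl, mul_comm]
    · rw [if_neg hl, if_neg hl, mul_zero]
  · intro i l
    rw [Fintype.sum_prod_type]
    have h1 : ∀ x : Fin m, ∑ y : Fin r, (H i.1 x * R i.2 y) * C x l = (H i.1 x * C x l) * p := by
      intro x
      rw [← hrow i.2, Finset.mul_sum]
      exact Finset.sum_congr rfl fun y _ => by ring
    simp only [h1]
    rw [← Finset.sum_mul, hP', Finset.sum_mul]
    exact Finset.sum_congr rfl fun x _ => by ring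

/-- There is a Hadamard matrix with constant row sums of order `h ^ 2`. -/
theorem reg_sq {h : ℕ} {K : Matrix (Fin h) (Fin h) ℝ} (hK : HadamardMat K) :
    ∃ R : Matrix (Fin (h * h)) (Fin (h * h)) ℝ, HadamardMat R ∧ ∀ i, ∑ j, R i j = (h : ℝ) := by
  obtain ⟨e⟩ : Nonempty (Fin (h * h) ≃ Fin h × Fin h) := ⟨finProdFinEquiv.symm⟩
  have hKK : ∀ i j, K i j * K i j = 1 := fun i j => sign_sq hK.1 i j
  obtain ⟨f, hf⟩ : ∃ f : Fin h × Fin h → Fin h × Fin h → ℝ, f = fun i k =>
      (K i.1 i.2 * K k.1 k.2) * (K i.1 k.1 * K i.2 k.2) := ⟨_, rfl⟩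
  have hsum : ∀ g : Fin h × Fin h → ℝ, ∑ k, g (e k) = ∑ k, g k := fun g => Equiv.sum_comp e g
  refine ⟨Matrix.of fun i j => f (e i) (e j), ⟨fun i j => ?_, ?_⟩, fun i => ?_⟩
  · show f (e i) (e j) = 1 ∨ f (e i) (e j) = -1
    rw [hf]
    exact Fam_mul_sign (Fam_mul_sign (hK.1 _ _) (hK.1 _ _)) (Fam_mul_sign (hK.1 _ _) (hK.1 _ _))
  · ext i j
    rw [Matrix.mul_apply, Matrix.smul_apply, Matrix.one_apply, smul_eq_mul]
    simp only [Matrix.transpose_apply, Matrix.of_apply]
    rw [hsum (fun k => f (e i) k * f (e j) k), hf]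
    have h1 : ∀ k : Fin h × Fin h, (K (e i).1 (e i).2 * K k.1 k.2 *
        (K (e i).1 k.1 * K (e i).2 k.2)) * (K (e j).1 (e j).2 * K k.1 k.2 *
        (K (e j).1 k.1 * K (e j).2 k.2)) = (K (e i).1 (e i).2 * K (e j).1 (e j).2) *
        ((K (e i).1 k.1 * K (e i).2 k.2) * (K (e j).1 k.1 * K (e j).2 k.2)) := by
      intro k
      have h2 := hKK k.1 k.2
      linear_combination (K (e i).1 (e i).2 * K (e j).1 (e j).2 * K (e i).1 k.1 * K (e i).2 k.2 *
        K (e j).1 k.1 * K (e j).2 k.2) * h2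
    simp only [h1]
    rw [← Finset.mul_sum, Fam_kron hK]
    push_cast
    by_cases hij : i = j
    · rw [hij, if_pos rfl, if_pos rfl, hKK, one_mul, mul_one]
    · rw [if_neg fun h0 => hij (e.injective h0), if_neg hij, mul_zero, mul_zero]
  · simp only [Matrix.of_apply]
    rw [hsum (fun k => f (e i) k), hf]
    have h1 : ∀ k : Fin h × Fin h, K (e i).1 (e i).2 * K k.1 k.2 *
        (K (e i).1 k.1 * K (e i).2 k.2) = K (e i).1 (e i).2 *
        ((K (e i).1 k.1 * K (e i).2 k.2) * (1 * K k.1 k.2)) := fun k => by ring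
    simp only [h1]
    rw [← Finset.mul_sum, Fam_vec hK (fun _ => 1)]
    have h2 := hKK (e i).1 (e i).2
    linear_combination (h : ℝ) * h2

end Pool.Agent.H.MP_abf7f7_an
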