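import Pool.Agent.H.MP_abf7f7_an.Fam

/-!
The Golay pairs of length 1, 10 and 26.
-/

set_option autoImplicit false

namespace Pool.Agent.H.MP_abf7f7_an

/-- A pair of integer lists which is checked by evaluation. -/
theorem Fam3_pair {v : ℕ} [NeZero v] (a b : ZMod v → ℤ) (ha : ∀ x, a x = 1 ∨ a x = -1)
    (hb : ∀ x, b x = 1 ∨ b x = -1)
    (hab : ∀ s : ZMod v, s ≠ 0 → ∑ x, (a x * a (x + s) + b x * b (x + s)) = 0) :
    Pair (2 * v) := by
  refine pair_golay (fun x => (a x : ℝ)) (fun x => (b x : ℝ)) ?_ ?_ ?_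
  · intro x
    rcases ha x with h | h
    · exact Or.inl (by rw [h]; norm_num)
    · exact Or.inr (by rw [h]; norm_num)
  · intro x
    rcases hb x with h | h
    · exact Or.inl (by rw [h]; norm_num)
    · exact Or.inr (by rw [h]; norm_num)
  · intro s hs
    have h := hab s hs
    have h1 : ((∑ x, (a x * a (x + s) + b x * b (x + s)) : ℤ) : ℝ) = 0 := by
      rw [h]
      norm_num
    push_cast at h1
    exact h1

/-- Order 2. -/
theorem pair_two : Pair 2 :=
  Fam3_pair (v := 1) (fun _ => 1) (fun _ => 1) (fun _ => Or.inl rfl) (fun _ => Or.inl rfl)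
    fun s hs => absurd (Subsingleton.elim s 0) hs

/-- The first sequence of length 10. -/
def Fam3_a : ZMod 10 → ℤ := fun x => ([1, 1, -1, 1, -1, 1, -1, -1, 1, 1] : List ℤ).getD x.val 1

/-- The second sequence of length 10. -/
def Fam3_b : ZMod 10 → ℤ := fun x => ([1, 1, -1, 1, 1, 1, 1, 1, -1, -1] : List ℤ).getD x.val 1

/-- Order 20. -/
theorem pair_twenty : Pair 20 :=
  Fam3_pair (v := 10) Fam3_a Fam3_b (by decide) (by decide) (by decide)

/-- The first sequence of length 26. -/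
def Fam3_c : ZMod 26 → ℤ := fun x => ([1, 1, 1, 1, -1, 1, 1, -1, -1, 1, -1, 1, -1, 1, -1, -1, 1, -1, 1, 1, 1, -1, -1, 1, 1, 1] :
  List ℤ).getD x.val 1

/-- The second sequence of length 26. -/
def Fam3_d : ZMod 26 → ℤ := fun x => ([1, 1, 1, 1, -1, 1, 1, -1, -1, 1, -1, 1, 1, 1, 1, 1, -1, 1, -1, -1, -1, 1, 1, -1, -1, -1] :
  List ℤ).getD x.val 1

/-- Order 52. -/
theorem pair_fiftytwo : Pair 52 :=
  Fam3_pair (v := 26) Fam3_c Fam3_d (by decide +kernel) (by decide +kernel) (by decide +kernel)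

end Pool.Agent.H.MP_abf7f7_an
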