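import Pool.Agent.H.MP_abf7f7_an.Fam3

/-!
The powers of two.
-/

set_option autoImplicit false

namespace Pool.Agent.H.MP_abf7f7_an

open Matrix

/-- The Hadamard matrix of order 2. -/
theorem had_two : ∃ K : Matrix (Fin 2) (Fin 2) ℝ, HadamardMat K := by
  refine ⟨Matrix.of fun i j => if i = 1 ∧ j = 1 then -1 else 1, ?_, ?_⟩
  · intro i j
    rw [Matrix.of_apply]
    by_cases h : i = 1 ∧ j = 1
    · rw [if_pos h]
      exact Or.inr rfl
    · rw [if_neg h]
      exact Or.inl rfl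
  · ext i j
    rw [Matrix.mul_apply, Fin.sum_univ_two]
    fin_cases i <;> fin_cases j <;> norm_num [Matrix.transpose_apply, Matrix.of_apply]

/-- Every power of two except one. -/
theorem pair_pow : ∀ j : ℕ, Pair (2 ^ (j + 1))
  | 0 => pair_two
  | 1 => by
    obtain ⟨K, hK⟩ := had_two
    exact pair_sq le_rfl hK
  | j + 2 => by
    obtain ⟨K, hK⟩ := had_two
    have h := pair_mul (pair_pow j) (by norm_num) hK
    have e : 2 ^ (j + 1) * (2 * 2) = 2 ^ (j + 2 + 1) := by ring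
    rwa [e] at h

/-- The orders `2 ^ k + 2`, `k ≥ 1`. -/
theorem pair_pow' (k : ℕ) (hk : 1 ≤ k) : Pair (2 ^ k) := by
  obtain ⟨j, rfl⟩ : ∃ j, k = j + 1 := ⟨k - 1, by omega⟩
  exact pair_pow j

end Pool.Agent.H.MP_abf7f7_an
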