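import Pool.Agent.H.MP_abf7f7_an.Border
import Pool.Agent.H.MP_abf7f7_an.Fam

set_option autoImplicit false

namespace Pool.Agent.H.MP_abf7f7_an

open Matrix

theorem Pair.lt_rMax_sq {m : ℕ} (h : Pair m) (hm : 1 ≤ m) :
    ((m + 2 : ℕ) : ℝ) - 1 < rMax (m + 2) ^ 2 := by
  obtain ⟨H, B, C, P, hH, hB, hC, hBB, hCC, hP⟩ := h
  have h1 := rMax_of_pair hm hH hB hC hBB hCC hP
  push_cast
  linarith

end Pool.Agent.H.MP_abf7f7_an
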