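import Pool.Agent.H.MP_abf7f7_an.Defs

set_option autoImplicit false

namespace Pool.Agent.H.MP_abf7f7_an

open Matrix

section Step

variable {n : ℕ}

/-- Duplicate column `j` (divided by `√2`) and add the row `(-e_j + e_{n+1}) / √2`. -/
noncomputable def extA (A : Matrix (Fin n) (Fin n) ℝ) (j : Fin n) :
    Matrix (Fin (n + 1)) (Fin (n + 1)) ℝ :=
  Fin.snoc (α := fun _ => Fin (n + 1) → ℝ)
    (fun i => Fin.snoc (α := fun _ => ℝ)
      (fun k => if k = j then A i j / Real.sqrt 2 else A i k) (A i j / Real.sqrt 2))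
    (Fin.snoc (α := fun _ => ℝ) (fun k => if k = j then -1 / Real.sqrt 2 else 0) (1 / Real.sqrt 2))

/-- The extended sign matrix. -/
def extM (M : Matrix (Fin n) (Fin n) ℝ) (j : Fin n) :
    Matrix (Fin (n + 1)) (Fin (n + 1)) ℝ :=
  Fin.snoc (α := fun _ => Fin (n + 1) → ℝ)
    (fun i => Fin.snoc (α := fun _ => ℝ) (fun k => M i k) (M i j))
    (Fin.snoc (α := fun _ => ℝ) (fun k => if k = j then -1 else 1) 1)

lemma extA_cc (A : Matrix (Fin n) (Fin n) ℝ) (j i k : Fin n) :
    extA A j i.castSucc k.castSucc = if k = j then A i j / Real.sqrt 2 else A i k := by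
  simp only [extA, Fin.snoc_castSucc]

lemma extA_cl (A : Matrix (Fin n) (Fin n) ℝ) (j i : Fin n) :
    extA A j i.castSucc (Fin.last n) = A i j / Real.sqrt 2 := by
  simp only [extA, Fin.snoc_castSucc, Fin.snoc_last]

lemma extA_lc (A : Matrix (Fin n) (Fin n) ℝ) (j k : Fin n) :
    extA A j (Fin.last n) k.castSucc = if k = j then -1 / Real.sqrt 2 else 0 := by
  simp only [extA, Fin.snoc_castSucc, Fin.snoc_last]

lemma extA_ll (A : Matrix (Fin n) (Fin n) ℝ) (j : Fin n) :
    extA A j (Fin.last n) (Fin.last n) = 1 / Real.sqrt 2 := by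
  simp only [extA, Fin.snoc_last]

lemma extM_cc (M : Matrix (Fin n) (Fin n) ℝ) (j i k : Fin n) :
    extM M j i.castSucc k.castSucc = M i k := by
  simp only [extM, Fin.snoc_castSucc]

lemma extM_cl (M : Matrix (Fin n) (Fin n) ℝ) (j i : Fin n) :
    extM M j i.castSucc (Fin.last n) = M i j := by
  simp only [extM, Fin.snoc_castSucc, Fin.snoc_last]

lemma extM_lc (M : Matrix (Fin n) (Fin n) ℝ) (j k : Fin n) :
    extM M j (Fin.last n) k.castSucc = if k = j then -1 else 1 := by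
  simp only [extM, Fin.snoc_castSucc, Fin.snoc_last]

lemma extM_ll (M : Matrix (Fin n) (Fin n) ℝ) (j : Fin n) :
    extM M j (Fin.last n) (Fin.last n) = 1 := by
  simp only [extM, Fin.snoc_last]

lemma isSign_extM {M : Matrix (Fin n) (Fin n) ℝ} (hM : IsSign M) (j : Fin n) :
    IsSign (extM M j) := by
  intro i k
  refine Fin.lastCases ?_ (fun i => ?_) i
  · refine Fin.lastCases ?_ (fun k => ?_) k
    · simp [extM]
    · simp only [extM, Fin.snoc_last, Fin.snoc_castSucc]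
      by_cases h : k = j <;> simp [h]
  · refine Fin.lastCases ?_ (fun k => ?_) k
    · simp only [extM, Fin.snoc_last, Fin.snoc_castSucc]; exact hM i j
    · simp only [extM, Fin.snoc_castSucc]; exact hM i k

lemma sqrt2_mul : Real.sqrt 2 * Real.sqrt 2 = 2 := Real.mul_self_sqrt (by norm_num)

lemma sqrt2_pos : 0 < Real.sqrt 2 := Real.sqrt_pos.mpr (by norm_num)

/-- The folded vector. -/
noncomputable def fold (z : Fin (n + 1) → ℝ) (j : Fin n) : Fin n → ℝ :=
  fun k => if k = j then (z j.castSucc + z (Fin.last n)) / Real.sqrt 2 else z k.castSucc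

lemma extA_mulVec_castSucc (A : Matrix (Fin n) (Fin n) ℝ) (j : Fin n) (z : Fin (n + 1) → ℝ)
    (i : Fin n) : (extA A j *ᵥ z) i.castSucc = (A *ᵥ fold z j) i := by
  simp only [mulVec, dotProduct, extA, fold]
  rw [Fin.sum_univ_castSucc]
  simp only [Fin.snoc_castSucc, Fin.snoc_last]
  rw [← Finset.add_sum_erase _ _ (Finset.mem_univ j), ← Finset.add_sum_erase _ _
    (Finset.mem_univ j)]
  simp only [if_true]
  have : ∑ k ∈ Finset.univ.erase j, (if k = j then A i j / Real.sqrt 2 else A i k) * z k.castSucc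
      = ∑ k ∈ Finset.univ.erase j, A i k * (if k = j then
          (z j.castSucc + z (Fin.last n)) / Real.sqrt 2 else z k.castSucc) := by
    refine Finset.sum_congr rfl fun k hk => ?_
    have hkj : k ≠ j := Finset.ne_of_mem_erase hk
    simp [hkj]
  rw [this]
  ring

lemma extA_mulVec_last (A : Matrix (Fin n) (Fin n) ℝ) (j : Fin n) (z : Fin (n + 1) → ℝ) :
    (extA A j *ᵥ z) (Fin.last n) = (z (Fin.last n) - z j.castSucc) / Real.sqrt 2 := by
  simp only [mulVec, dotProduct, extA]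
  rw [Fin.sum_univ_castSucc]
  simp only [Fin.snoc_castSucc, Fin.snoc_last, ite_mul, zero_mul, Finset.sum_ite_eq',
    Finset.mem_univ, if_true]
  ring

lemma fold_dot (z : Fin (n + 1) → ℝ) (j : Fin n) :
    fold z j ⬝ᵥ fold z j + ((z (Fin.last n) - z j.castSucc) / Real.sqrt 2) *
      ((z (Fin.last n) - z j.castSucc) / Real.sqrt 2) = z ⬝ᵥ z := by
  simp only [dotProduct, fold]
  rw [Fin.sum_univ_castSucc (fun i => z i * z i)]
  rw [← Finset.add_sum_erase _ _ (Finset.mem_univ j),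
    ← Finset.add_sum_erase _ (fun i : Fin n => z i.castSucc * z i.castSucc) (Finset.mem_univ j)]
  simp only [if_true]
  have : ∑ k ∈ Finset.univ.erase j, (if k = j then
          (z j.castSucc + z (Fin.last n)) / Real.sqrt 2 else z k.castSucc) * (if k = j then
          (z j.castSucc + z (Fin.last n)) / Real.sqrt 2 else z k.castSucc)
      = ∑ k ∈ Finset.univ.erase j, z k.castSucc * z k.castSucc := by
    refine Finset.sum_congr rfl fun k hk => ?_
    have hkj : k ≠ j := Finset.ne_of_mem_erase hk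
    simp [hkj]
  rw [this, div_mul_div_comm, div_mul_div_comm, sqrt2_mul]
  ring

lemma opNorm_extA_le {A : Matrix (Fin n) (Fin n) ℝ} (hA : opNorm A ≤ 1) (j : Fin n) :
    opNorm (extA A j) ≤ 1 := by
  refine opNorm_le _ zero_le_one fun z => ?_
  rw [one_pow, one_mul, ← fold_dot z j]
  have h1 : (extA A j *ᵥ z) ⬝ᵥ (extA A j *ᵥ z)
      = (A *ᵥ fold z j) ⬝ᵥ (A *ᵥ fold z j) + ((z (Fin.last n) - z j.castSucc) / Real.sqrt 2) *
      ((z (Fin.last n) - z j.castSucc) / Real.sqrt 2) := by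
    simp only [dotProduct]
    rw [Fin.sum_univ_castSucc, extA_mulVec_last]
    simp only [extA_mulVec_castSucc]
  rw [h1]
  have h2 := mulVec_dot_le hA (fold z j)
  rw [one_pow, one_mul] at h2
  linarith

/-- The extended test vector. -/
noncomputable def extX (x : Fin n → ℝ) (j : Fin n) : Fin (n + 1) → ℝ :=
  Fin.snoc (α := fun _ => ℝ) (fun k => if k = j then x j / Real.sqrt 2 else x k)
    (x j / Real.sqrt 2)

lemma extX_dot (x : Fin n → ℝ) (j : Fin n) : extX x j ⬝ᵥ extX x j = x ⬝ᵥ x := by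
  simp only [dotProduct, extX]
  rw [Fin.sum_univ_castSucc]
  simp only [Fin.snoc_castSucc, Fin.snoc_last]
  rw [← Finset.add_sum_erase _ _ (Finset.mem_univ j),
    ← Finset.add_sum_erase _ (fun i : Fin n => x i * x i) (Finset.mem_univ j)]
  simp only [if_true]
  have : ∑ k ∈ Finset.univ.erase j, (if k = j then x j / Real.sqrt 2 else x k) *
      (if k = j then x j / Real.sqrt 2 else x k) = ∑ k ∈ Finset.univ.erase j, x k * x k := by
    refine Finset.sum_congr rfl fun k hk => ?_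
    have hkj : k ≠ j := Finset.ne_of_mem_erase hk
    simp [hkj]
  rw [this, div_mul_div_comm, sqrt2_mul]
  ring

lemma ext_mulVec (M A : Matrix (Fin n) (Fin n) ℝ) (x : Fin n → ℝ) (j : Fin n) :
    ((extM M j ⊙ extA A j) *ᵥ extX x j) ⬝ᵥ ((extM M j ⊙ extA A j) *ᵥ extX x j)
      = ((M ⊙ A) *ᵥ x) ⬝ᵥ ((M ⊙ A) *ᵥ x) + x j * x j := by
  have h1 : ∀ i : Fin n, ((extM M j ⊙ extA A j) *ᵥ extX x j) i.castSucc = ((M ⊙ A) *ᵥ x) i := by
    intro i
    simp only [mulVec, dotProduct, Matrix.hadamard_apply]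
    rw [Fin.sum_univ_castSucc]
    simp only [extM_cc, extM_cl, extA_cc, extA_cl, extX, Fin.snoc_castSucc, Fin.snoc_last]
    rw [← Finset.add_sum_erase _ _ (Finset.mem_univ j),
      ← Finset.add_sum_erase _ (fun k => M i k * A i k * x k) (Finset.mem_univ j)]
    simp only [if_true]
    have : ∑ k ∈ Finset.univ.erase j, M i k * (if k = j then A i j / Real.sqrt 2 else A i k) *
        (if k = j then x j / Real.sqrt 2 else x k)
        = ∑ k ∈ Finset.univ.erase j, M i k * A i k * x k := by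
      refine Finset.sum_congr rfl fun k hk => ?_
      have hkj : k ≠ j := Finset.ne_of_mem_erase hk
      simp [hkj]
    rw [this]
    have h2 := sqrt2_mul
    have h3 := sqrt2_pos.ne'
    have h4 : M i j * (A i j / Real.sqrt 2) * (x j / Real.sqrt 2) = M i j * A i j * x j / 2 := by
      calc M i j * (A i j / Real.sqrt 2) * (x j / Real.sqrt 2)
          = M i j * A i j * x j / (Real.sqrt 2 * Real.sqrt 2) := by field_simp
        _ = _ := by rw [h2]
    rw [h4]
    ring
  have h2 : ((extM M j ⊙ extA A j) *ᵥ extX x j) (Fin.last n) = x j := by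
    simp only [mulVec, dotProduct, Matrix.hadamard_apply]
    rw [Fin.sum_univ_castSucc]
    simp only [extM_lc, extM_ll, extA_lc, extA_ll, extX, Fin.snoc_castSucc, Fin.snoc_last]
    rw [← Finset.add_sum_erase _ _ (Finset.mem_univ j)]
    simp only [if_true]
    have : ∑ k ∈ Finset.univ.erase j, (if k = j then (-1 : ℝ) else 1) *
        (if k = j then -1 / Real.sqrt 2 else 0) * (if k = j then x j / Real.sqrt 2 else x k)
        = 0 := by
      refine Finset.sum_eq_zero fun k hk => ?_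
      have hkj : k ≠ j := Finset.ne_of_mem_erase hk
      simp [hkj]
    rw [this]
    have h3 := sqrt2_pos.ne'
    have h4 : (-1 : ℝ) * (-1 / Real.sqrt 2) * (x j / Real.sqrt 2) = x j / 2 := by
      have := sqrt2_mul
      field_simp
      rw [sq, this, mul_comm]
    have h5 : (1 : ℝ) * (1 / Real.sqrt 2) * (x j / Real.sqrt 2) = x j / 2 := by
      have := sqrt2_mul
      field_simp
      rw [sq, this, mul_comm]
    rw [h4, h5]
    ring
  have h3 : ((extM M j ⊙ extA A j) *ᵥ extX x j) ⬝ᵥ ((extM M j ⊙ extA A j) *ᵥ extX x j)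
      = ∑ i, ((extM M j ⊙ extA A j) *ᵥ extX x j) i * ((extM M j ⊙ extA A j) *ᵥ extX x j) i := rfl
  rw [h3, Fin.sum_univ_castSucc, h2]
  simp only [h1]
  rfl

end Step

lemma opNorm_sq_le_of_forall {n : ℕ} (B : Matrix (Fin n) (Fin n) ℝ) {c : ℝ} (hc : 0 ≤ c)
    (h : ∀ x : Fin n → ℝ, x ⬝ᵥ x = 1 → (B *ᵥ x) ⬝ᵥ (B *ᵥ x) ≤ c) : opNorm B ^ 2 ≤ c := by
  have h1 : opNorm B ≤ Real.sqrt c := by
    refine opNorm_le B (Real.sqrt_nonneg c) fun x => ?_
    rw [Real.sq_sqrt hc]
    rcases (dot_self_nonneg x).eq_or_lt with h0 | h0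
    · have hx : x = 0 := dotProduct_self_eq_zero.mp h0.symm
      rw [hx]; simp
    · set s := Real.sqrt (x ⬝ᵥ x) with hs
      have hspos : 0 < s := Real.sqrt_pos.mpr h0
      have hss : s * s = x ⬝ᵥ x := Real.mul_self_sqrt h0.le
      have h2 := h (s⁻¹ • x) (by
        rw [smul_dotProduct, dotProduct_smul, smul_eq_mul, smul_eq_mul, ← mul_assoc, ← hss]
        field_simp)
      rw [Matrix.mulVec_smul, smul_dotProduct, dotProduct_smul, smul_eq_mul, smul_eq_mul,
        ← mul_assoc] at h2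
      have h3 : s⁻¹ * s⁻¹ = (x ⬝ᵥ x)⁻¹ := by rw [← hss, mul_inv]
      rw [h3, inv_mul_le_iff₀ h0] at h2
      linarith
  calc opNorm B ^ 2 ≤ Real.sqrt c ^ 2 := pow_le_pow_left₀ (opNorm_nonneg _) h1 2
    _ = c := Real.sq_sqrt hc

/-- **Strict monotonicity**: `r_n^2 + 1/n ≤ r_{n+1}^2`. -/
theorem rMax_step (n : ℕ) (hn : 0 < n) : rMax n ^ 2 + 1 / n ≤ rMax (n + 1) ^ 2 := by
  obtain ⟨M, hM, hMr⟩ := exists_maximizer n
  have hnR : (0 : ℝ) < n := by exact_mod_cast hn
  have key : ∀ A : Matrix (Fin n) (Fin n) ℝ, opNorm A ≤ 1 → ∀ x : Fin n → ℝ, x ⬝ᵥ x = 1 →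
      ((M ⊙ A) *ᵥ x) ⬝ᵥ ((M ⊙ A) *ᵥ x) + 1 / n ≤ rMax (n + 1) ^ 2 := by
    intro A hA x hx
    obtain ⟨j, hj⟩ : ∃ j, 1 / (n : ℝ) ≤ x j * x j := by
      by_contra hcon
      push Not at hcon
      have : x ⬝ᵥ x < ∑ _j : Fin n, 1 / (n : ℝ) := by
        have : Nonempty (Fin n) := ⟨⟨0, hn⟩⟩
        exact Finset.sum_lt_sum_of_nonempty Finset.univ_nonempty fun j _ => hcon j
      rw [hx] at this
      simp only [Finset.sum_const, Finset.card_univ, Fintype.card_fin, nsmul_eq_mul] at this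
      rw [mul_one_div_cancel hnR.ne'] at this
      exact lt_irrefl _ this
    have h1 := le_rMax_sq_of (isSign_extM hM j) (opNorm_extA_le hA j) (extX x j)
      (by rw [extX_dot, hx])
    rw [ext_mulVec] at h1
    linarith
  have h2 : ∀ A : Matrix (Fin n) (Fin n) ℝ, opNorm A ≤ 1 →
      opNorm (M ⊙ A) ≤ Real.sqrt (rMax (n + 1) ^ 2 - 1 / n) := by
    intro A hA
    have h3 : 0 ≤ rMax (n + 1) ^ 2 - 1 / n := by
      have hx : (Pi.single (⟨0, hn⟩ : Fin n) (1 : ℝ)) ⬝ᵥ (Pi.single (⟨0, hn⟩ : Fin n) (1 : ℝ))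
          = 1 := by simp
      have := key A hA _ hx
      have h4 := dot_self_nonneg ((M ⊙ A) *ᵥ Pi.single (⟨0, hn⟩ : Fin n) (1 : ℝ))
      linarith
    have h5 := opNorm_sq_le_of_forall (M ⊙ A) h3 fun x hx => by
      have := key A hA x hx
      linarith
    exact Real.le_sqrt_of_sq_le h5
  have h6 : rMax n ≤ Real.sqrt (rMax (n + 1) ^ 2 - 1 / n) := by
    rw [← hMr]
    refine csSup_le (schur_set_nonempty M) ?_
    rintro t ⟨B, hB, rfl⟩
    exact h2 B hB
  have h7 := pow_le_pow_left₀ (rMax_nonneg n) h6 2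
  by_cases h8 : 0 ≤ rMax (n + 1) ^ 2 - 1 / n
  · rw [Real.sq_sqrt h8] at h7
    linarith
  · exfalso
    have h0 : opNorm (0 : Matrix (Fin n) (Fin n) ℝ) ≤ 1 := by unfold opNorm; simp
    have hx : (Pi.single (⟨0, hn⟩ : Fin n) (1 : ℝ)) ⬝ᵥ (Pi.single (⟨0, hn⟩ : Fin n) (1 : ℝ))
        = 1 := by simp
    have := key 0 h0 _ hx
    have h4 := dot_self_nonneg ((M ⊙ (0 : Matrix (Fin n) (Fin n) ℝ)) *ᵥ
      Pi.single (⟨0, hn⟩ : Fin n) (1 : ℝ))
    linarith

end Pool.Agent.H.MP_abf7f7_an
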